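import Pool.Agent.Helper60.DC.D6

/-!
# ED: decoupling of order twenty (cones over nondegenerate curves in five dimensions), abstract part

The tree setting is the one of `Pool.Agent.Helper22.AC` (`Sys`, `sep`, `n6`) and `Pool.Agent.Helper60.DC` (`Sys3`, `n12`). `n20` is the square of
the `L²⁰` norm, `S4` the sum of `n20` over the descendants at the last level, `Dec4` the decoupling inequality, `BilA`, `BilB` the bilinear
inequalities for `∫ ‖g_i‖² ‖g_j‖¹⁸`, `∫ ‖g_i‖⁶ ‖g_j‖¹⁴`, and `BilC` the one for `∫ ‖g_i‖¹² ‖g_j‖⁸`.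
`Sys4`: an `M`-adic system of depth `m` such that, for an arc `J` of level `a + 1 + b` and an arc `I` of level `a + 1`, in the same arc of level
`a`, `I` and the ancestor of `J` of level `a + 1` being at distance at least two,
(1) the functions of the arcs of level `a + 1 + c` below `I`, `c + 1 ≤ 4 b`, at distance at least two, are orthogonal for `‖g_J‖¹⁸ dμ`;
(2) the system below `I` down to the level `a + 1 + D`, `2 D ≤ 3 b`, is a system (`Sys`) for `‖g_J‖¹⁴ dμ`;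
(3) the system below `I` down to the level `a + 1 + D`, `3 D ≤ 2 b`, is a cubic system (`Sys3`) for `‖g_J‖⁸ dμ`.
-/

open MeasureTheory Real Set Filter Topology
open scoped NNReal ENNReal

set_option autoImplicit false

namespace Pool.Agent.Helper93.ED

open Pool.Agent.Helper22.AC
open Pool.Agent.Helper60.DC (Sys3)

/-- the square of the `L²⁰` norm -/
noncomputable def n20 {Ω : Type} [MeasurableSpace Ω] (μ : Measure Ω) (f : Ω → ℂ) : ℝ :=
  (∫ ω, ‖f ω‖ ^ 20 ∂μ) ^ (1 / 10 : ℝ)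

/-- the measure `‖G‖^p dμ` -/
noncomputable def wp {Ω : Type} [MeasurableSpace Ω] (p : ℕ) (μ : Measure Ω) (G : Ω → ℂ) : Measure Ω :=
  μ.withDensity (fun ω => ((‖G ω‖₊ ^ p : ℝ≥0) : ℝ≥0∞))

/-- an `M`-adic system of depth `m` with the relations of order twenty -/
structure Sys4 {Ω : Type} [MeasurableSpace Ω] (μ : Measure Ω) (M m : ℕ) (g : ℕ → ℕ → Ω → ℂ) : Prop where
  meas : ∀ s j, Measurable (g s j)
  bdd : ∀ s j, ∃ B : ℝ, ∀ ω, ‖g s j ω‖ ≤ B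
  add : ∀ s < m, ∀ j < M ^ s, ∀ ω, g s j ω = ∑ r ∈ Finset.range M, g (s + 1) (M * j + r) ω
  orth : ∀ a b c : ℕ, c + 1 ≤ 4 * b → a + 1 + b ≤ m → a + 1 + c ≤ m →
    ∀ j < M ^ (a + 1 + b), ∀ i < M ^ (a + 1 + c), ∀ i' < M ^ (a + 1 + c),
      j / M ^ (b + 1) = i / M ^ (c + 1) → i / M ^ c = i' / M ^ c → sep (i / M ^ c) (j / M ^ b) → sep i i' →
        ∫ ω, g (a + 1 + c) i ω * (starRingEnd ℂ) (g (a + 1 + c) i' ω) *
          ((‖g (a + 1 + b) j ω‖ ^ 18 : ℝ) : ℂ) ∂μ = 0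
  low2 : ∀ a b D : ℕ, 2 * D ≤ 3 * b → a + 1 + b ≤ m → a + 1 + D ≤ m → ∀ i < M ^ (a + 1), ∀ j < M ^ (a + 1 + b),
    i / M = j / M ^ (b + 1) → sep i (j / M ^ b) →
      Sys (wp 14 μ (g (a + 1 + b) j)) M D (fun s r => g (a + 1 + s) (M ^ s * i + r))
  low3 : ∀ a b D : ℕ, 3 * D ≤ 2 * b → a + 1 + b ≤ m → a + 1 + D ≤ m → ∀ i < M ^ (a + 1), ∀ j < M ^ (a + 1 + b),
    i / M = j / M ^ (b + 1) → sep i (j / M ^ b) →
      Sys3 (wp 8 μ (g (a + 1 + b) j)) M D (fun s r => g (a + 1 + s) (M ^ s * i + r))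

/-- sum of `n20` over the descendants of the arc `(s, j)` at the last level `m` -/
noncomputable def S4 {Ω : Type} [MeasurableSpace Ω] (μ : Measure Ω) (M m : ℕ) (g : ℕ → ℕ → Ω → ℂ) (s j : ℕ) : ℝ :=
  ∑ r ∈ Finset.range (M ^ (m - s)), n20 μ (g m (M ^ (m - s) * j + r))

/-- the decoupling inequality with exponent `lam` for all arcs of the system -/
def Dec4 {Ω : Type} [MeasurableSpace Ω] (μ : Measure Ω) (M m : ℕ) (g : ℕ → ℕ → Ω → ℂ) (lam C : ℝ) : Prop :=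
  ∀ s ≤ m, ∀ j < M ^ s, n20 μ (g s j) ≤ C * (M : ℝ) ^ (lam * ((m : ℝ) - s)) * S4 μ M m g s j

/-- the bilinear inequality of type `(2 p, 20 - 2 p)` between the levels `a + 1 + b₁` and `a + 1 + b₂` inside one arc of level `a` -/
def Bil {Ω : Type} [MeasurableSpace Ω] (p : ℕ) (μ : Measure Ω) (M m : ℕ) (g : ℕ → ℕ → Ω → ℂ) (a b₁ b₂ : ℕ) (A : ℝ) : Prop :=
  ∀ i < M ^ (a + 1 + b₁), ∀ j < M ^ (a + 1 + b₂), i / M ^ (b₁ + 1) = j / M ^ (b₂ + 1) →
    sep (i / M ^ b₁) (j / M ^ b₂) →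
      ∫ ω, ‖g (a + 1 + b₁) i ω‖ ^ (2 * p) * ‖g (a + 1 + b₂) j ω‖ ^ (20 - 2 * p) ∂μ ≤
        A * S4 μ M m g (a + 1 + b₁) i ^ p * S4 μ M m g (a + 1 + b₂) j ^ (10 - p)

end Pool.Agent.Helper93.ED
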