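import Pool.Agent.Helper93.ED.E6

/-!
# ED-E7: the decoupling theorem of order twenty for abstract systems
-/

open MeasureTheory Real Set Filter Topology

set_option autoImplicit false

namespace Pool.Agent.Helper93.ED

open Pool.Agent.Helper22.AC
open Pool.Agent.Helper60.DC (Sys3 n12 decoupling3 n12_nonneg)

private theorem triv_dec {Ω : Type} [MeasurableSpace Ω] {μ : Measure Ω} [IsFiniteMeasure μ] {M m : ℕ}
    {g : ℕ → ℕ → Ω → ℂ} (hg : Sys4 μ M m g) {s j : ℕ} (hs : s ≤ m) (hj : j < M ^ s) :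
    n20 μ (g s j) ≤ (M : ℝ) ^ (19 / 10 * ((m : ℝ) - s)) * S4 μ M m g s j := by
  have h1 : g s j = fun ω => ∑ r ∈ Finset.range (M ^ (m - s)), g m (M ^ (m - s) * j + r) ω := by
    funext ω
    rw [desc_sum4 hg (s := s) (t := m - s) (by omega) hj ω]
    simp only [Nat.add_sub_cancel' hs]
  have h2 := n20_sum_le μ (M ^ (m - s)) (fun r => g m (M ^ (m - s) * j + r)) (fun r => hg.meas _ _)
    (fun r => hg.bdd _ _)
  rw [h1]
  refine h2.trans (le_of_eq ?_)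
  have h3 : (((M ^ (m - s) : ℕ) : ℝ)) ^ (19 / 10 : ℝ) = (M : ℝ) ^ (19 / 10 * ((m : ℝ) - s)) := by
    rw [Nat.cast_pow, ← Real.rpow_natCast, ← Real.rpow_mul (by positivity), Nat.cast_sub hs]
    congr 1
    ring
  rw [h3]
  rfl

theorem dec_step4 {Ω : Type} [MeasurableSpace Ω] {μ : Measure Ω} [IsFiniteMeasure μ] {M m : ℕ} {g : ℕ → ℕ → Ω → ℂ}
    {σ ε : ℝ} (hσ : 0 ≤ σ)
    (h6 : ∀ (Ω : Type) [MeasurableSpace Ω] (μ : Measure Ω) [IsFiniteMeasure μ] (m : ℕ) (g : ℕ → ℕ → Ω → ℂ), Sys μ M m g →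
      n6 μ (g 0 0) ≤ (M : ℝ) ^ σ * (M : ℝ) ^ (ε / 9 * (m : ℝ)) * ∑ r ∈ Finset.range (M ^ m), n6 μ (g m r))
    (h12 : ∀ (Ω : Type) [MeasurableSpace Ω] (μ : Measure Ω) [IsFiniteMeasure μ] (m : ℕ) (g : ℕ → ℕ → Ω → ℂ), Sys3 μ M m g →
      n12 μ (g 0 0) ≤ (M : ℝ) ^ σ * (M : ℝ) ^ (ε / 9 * (m : ℝ)) * ∑ r ∈ Finset.range (M ^ m), n12 μ (g m r))
    (hg : Sys4 μ M m g) (hM : 2 ≤ M) {lam γ : ℝ} (hε : 0 < ε) (hMε : (2 : ℝ) ^ 80 ≤ (M : ℝ) ^ (10 * ε)) (hlam : ε ≤ lam)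
    (hγ : 0 ≤ γ) {N : ℕ} (hN : 19 ≤ ε * N) (hdec : Dec4 μ M m g lam ((M : ℝ) ^ γ)) :
    Dec4 μ M m g (max (lam - 1 / (10 * 4 ^ (N + 1))) ε) ((M : ℝ) ^ ((10 * γ + 3 * σ + 19 * 4 ^ (N + 1) + 73) / 10)) := by
  set lam' : ℝ := max (lam - 1 / (10 * 4 ^ (N + 1))) ε with hlam'
  set κ : ℝ := 10 * γ + 3 * σ + 19 * 4 ^ (N + 1) + 73 with hκ
  have hX2 : (2 : ℝ) ≤ M := by exact_mod_cast hM
  have hX1 : (1 : ℝ) ≤ M := by linarith
  have hX : (0 : ℝ) < M := by linarith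
  have hM1 : 1 ≤ M := by omega
  have hl1 : ε ≤ lam' := le_max_right _ _
  have hl2 : lam - 1 / (10 * 4 ^ (N + 1)) ≤ lam' := le_max_left _ _
  have hl0 : 0 < lam' := lt_of_lt_of_le hε hl1
  have hlam0 : 0 < lam := lt_of_lt_of_le hε hlam
  have hMl : (2 : ℝ) ^ 80 ≤ (M : ℝ) ^ (10 * lam') :=
    hMε.trans (Real.rpow_le_rpow_of_exponent_le hX1 (by linarith))
  have hP0 : (0 : ℝ) < 4 ^ (N + 1) := by positivity
  have claim : ∀ l a : ℕ, a + l = m → ∀ j < M ^ a,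
      n20 μ (g a j) ^ 10 ≤ (M : ℝ) ^ (κ + 10 * lam' * (l : ℝ)) * S4 μ M m g a j ^ 10 := by
    intro l
    induction l with
    | zero =>
      intro a ha j hj
      have ha' : a = m := by omega
      subst ha'
      rw [S4_last]
      have h1 : 0 ≤ n20 μ (g a j) ^ 10 := pow_nonneg (n20_nonneg _ _) 10
      have h2 : (1 : ℝ) ≤ (M : ℝ) ^ (κ + 10 * lam' * ((0 : ℕ) : ℝ)) := by
        apply Real.one_le_rpow hX1
        rw [hκ]
        push_cast
        positivity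
      exact le_mul_of_one_le_left h1 h2
    | succ l ih =>
      intro a ha j hj
      have hS : S4 μ M m g a j = ∑ r ∈ Finset.range M, S4 μ M m g (a + 1) (M * j + r) := by
        have h := S4_split μ M m g (s := a) (t := 1) j (by omega)
        rwa [pow_one] at h
      have hS00 : 0 ≤ S4 μ M m g a j := S4_nonneg _ _ _ _ _ _
      have hS0 : 0 ≤ S4 μ M m g a j ^ 10 := pow_nonneg hS00 10
      have hmr : (m : ℝ) = a + l + 1 := by
        rw [← ha]
        push_cast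
        ring
      obtain ⟨B, hB⟩ : ∃ B : ℕ, B = l / 4 ^ (N + 1) := ⟨_, rfl⟩
      have hpow : 0 < 4 ^ (N + 1) := by positivity
      have hB1 : 4 ^ (N + 1) * B ≤ l := by
        rw [hB]
        exact Nat.mul_div_le _ _
      have hB3 : l < 4 ^ (N + 1) * (B + 1) := by
        rw [hB]
        exact Nat.lt_mul_div_succ l hpow
      clear hB
      rcases Nat.eq_zero_or_pos B with hB0 | hB0
      · subst hB0
        rw [Nat.zero_add, Nat.mul_one] at hB3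
        have hlr : (l : ℝ) + 1 ≤ 4 ^ (N + 1) := by exact_mod_cast hB3
        have h1 := triv_dec hg (s := a) (by omega) hj
        have h2 := pow_le_pow_left₀ (n20_nonneg _ _) h1 10
        refine h2.trans ?_
        rw [mul_pow]
        refine mul_le_mul_of_nonneg_right ?_ hS0
        rw [← Real.rpow_natCast, ← Real.rpow_mul hX.le]
        apply Real.rpow_le_rpow_of_exponent_le hX1
        have h3 : 0 ≤ 10 * lam' * ((l + 1 : ℕ) : ℝ) := by positivity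
        rw [hmr]
        push_cast at h3 ⊢
        rw [hκ]
        linarith
      · have hbil := (chain hσ (by positivity : 0 ≤ ε / 9) h6 h12 hg hM (lam := lam) (γ := γ) (by linarith) hdec (a := a) N B hB0
          (by omega)).1 B (by omega)
        have hone := one_level4 hg hM1 (a := a) (b₀ := B) hj (by
          have := Nat.mul_le_mul_right B (Nat.one_le_pow (N + 1) 4 (by norm_num))
          omega) (by positivity) (step5 hg hM1 hbil)
        have hcast : (m : ℝ) - a - 1 = l := by rw [hmr]; ring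
        rw [hcast] at hone
        -- first term
        have hfirst : ∑ r ∈ Finset.range M, n20 μ (g (a + 1) (M * j + r)) ^ 10 ≤
            (M : ℝ) ^ (κ + 10 * lam' * (l : ℝ)) * S4 μ M m g a j ^ 10 := by
          have h1 : ∀ r ∈ Finset.range M, n20 μ (g (a + 1) (M * j + r)) ^ 10 ≤
              (M : ℝ) ^ (κ + 10 * lam' * (l : ℝ)) * S4 μ M m g (a + 1) (M * j + r) ^ 10 := by
            intro r hr
            apply ih (a + 1) (by omega)
            have h2 := desc_lt (M := M) (s := a) (t := 1) (r := r) hj (by rw [pow_one]; exact Finset.mem_range.1 hr)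
            rwa [pow_one] at h2
          refine (Finset.sum_le_sum h1).trans ?_
          rw [← Finset.mul_sum, hS]
          apply mul_le_mul_of_nonneg_left _ (by positivity)
          exact pow_sum_le' _ _ (fun r _ => S4_nonneg _ _ _ _ _ _) 9
        -- second term
        have hB1r : (1 : ℝ) ≤ B := by exact_mod_cast hB0
        have hlN : 19 ≤ lam * N := hN.trans (mul_le_mul_of_nonneg_right hlam (Nat.cast_nonneg N))
        have hBr : (l : ℝ) / 4 ^ (N + 1) ≤ B + 1 := by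
          rw [div_le_iff₀ hP0]
          have : ((l : ℕ) : ℝ) ≤ ((4 ^ (N + 1) * (B + 1) : ℕ) : ℝ) := by exact_mod_cast hB3.le
          push_cast at this
          linarith
        have hexp : (39 : ℝ) + (30 + 18 * (B : ℝ)) +
            (10 * γ + 10 * lam * l - lam * N * (3 * B - 2) + 3 + 3 * σ) ≤ κ + 10 * lam' * l := by
          have h2 : 19 * (3 * (B : ℝ) - 2) ≤ lam * N * (3 * B - 2) := mul_le_mul_of_nonneg_right hlN (by linarith)
          have h3 : (lam - 1 / (10 * 4 ^ (N + 1))) * (10 * l) ≤ lam' * (10 * l) :=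
            mul_le_mul_of_nonneg_right hl2 (by positivity)
          have h4 : (lam - 1 / (10 * 4 ^ (N + 1))) * (10 * l) = 10 * lam * l - (l : ℝ) / 4 ^ (N + 1) := by
            field_simp
          rw [h4] at h3
          rw [hκ]
          have h5 : (0 : ℝ) ≤ 19 * 4 ^ (N + 1) := by positivity
          linarith
        have hsecond : 2 ^ 39 * (M : ℝ) ^ (30 + 18 * B) *
            (M : ℝ) ^ (10 * γ + 10 * lam * l - lam * N * (3 * B - 2) + 3 + 3 * σ) ≤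
            (M : ℝ) ^ (κ + 10 * lam' * (l : ℝ)) := by
          have h1 : (2 : ℝ) ^ 39 ≤ (M : ℝ) ^ (39 : ℝ) := by
            have h2 : (2 : ℝ) ^ 39 ≤ (M : ℝ) ^ 39 := pow_le_pow_left₀ (by norm_num) hX2 39
            have h3 : (M : ℝ) ^ (39 : ℝ) = (M : ℝ) ^ 39 := by
              rw [← Real.rpow_natCast]
              norm_num
            rw [h3]
            exact h2
          have h2 : (M : ℝ) ^ (30 + 18 * B) = (M : ℝ) ^ (30 + 18 * (B : ℝ)) := by
            rw [← Real.rpow_natCast]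
            push_cast
            rfl
          rw [h2]
          calc 2 ^ 39 * (M : ℝ) ^ (30 + 18 * (B : ℝ)) *
                (M : ℝ) ^ (10 * γ + 10 * lam * l - lam * N * (3 * B - 2) + 3 + 3 * σ)
              ≤ (M : ℝ) ^ (39 : ℝ) * (M : ℝ) ^ (30 + 18 * (B : ℝ)) *
                (M : ℝ) ^ (10 * γ + 10 * lam * l - lam * N * (3 * B - 2) + 3 + 3 * σ) := by gcongr
            _ = (M : ℝ) ^ ((39 : ℝ) + (30 + 18 * (B : ℝ)) +
                (10 * γ + 10 * lam * l - lam * N * (3 * B - 2) + 3 + 3 * σ)) := by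
                rw [← Real.rpow_add hX, ← Real.rpow_add hX]
            _ ≤ _ := Real.rpow_le_rpow_of_exponent_le hX1 hexp
        set Q : ℝ := (M : ℝ) ^ (κ + 10 * lam' * (l : ℝ)) with hQ
        have hsum : (M : ℝ) ^ (κ + 10 * lam' * ((l + 1 : ℕ) : ℝ)) = Q * (M : ℝ) ^ (10 * lam') := by
          rw [hQ, ← Real.rpow_add hX]
          congr 1
          push_cast
          ring
        have hQ0 : 0 ≤ Q := by positivity
        have hX' : 0 ≤ Q * S4 μ M m g a j ^ 10 := by positivity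
        calc n20 μ (g a j) ^ 10 ≤ 2 ^ 79 * ∑ r ∈ Finset.range M, n20 μ (g (a + 1) (M * j + r)) ^ 10 +
              2 ^ 39 * (M : ℝ) ^ (30 + 18 * B) *
                (M : ℝ) ^ (10 * γ + 10 * lam * l - lam * N * (3 * B - 2) + 3 + 3 * σ) *
                S4 μ M m g a j ^ 10 := hone
          _ ≤ 2 ^ 79 * (Q * S4 μ M m g a j ^ 10) + Q * S4 μ M m g a j ^ 10 :=
                add_le_add (mul_le_mul_of_nonneg_left hfirst (by positivity))
                  (mul_le_mul_of_nonneg_right hsecond hS0)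
          _ = (Q * S4 μ M m g a j ^ 10) * (2 ^ 79 + 1) := by ring
          _ ≤ (Q * S4 μ M m g a j ^ 10) * (M : ℝ) ^ (10 * lam') :=
                mul_le_mul_of_nonneg_left (le_trans (by norm_num) hMl) hX'
          _ = (M : ℝ) ^ (κ + 10 * lam' * ((l + 1 : ℕ) : ℝ)) * S4 μ M m g a j ^ 10 := by
                rw [hsum]
                ring
  intro s hs j hj
  have h1 := claim (m - s) s (by omega) j hj
  have h2 : ((m - s : ℕ) : ℝ) = (m : ℝ) - s := by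
    rw [Nat.cast_sub hs]
  rw [h2] at h1
  have hR : 0 ≤ (M : ℝ) ^ (κ / 10) * (M : ℝ) ^ (lam' * ((m : ℝ) - s)) * S4 μ M m g s j :=
    mul_nonneg (by positivity) (S4_nonneg _ _ _ _ _ _)
  rw [← pow_le_pow_iff_left₀ (n20_nonneg _ _) hR (by norm_num : (10 : ℕ) ≠ 0)]
  refine h1.trans (le_of_eq ?_)
  rw [mul_pow, ← Real.rpow_add hX, ← Real.rpow_natCast ((M : ℝ) ^ (κ / 10 + lam' * ((m : ℝ) - s))) 10,
    ← Real.rpow_mul hX.le]
  congr 2
  push_cast
  ring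

private lemma dec_iter4 {σ ε : ℝ} (hσ : 0 ≤ σ) (hε : 0 < ε) {M : ℕ} (hM : 2 ≤ M)
    (h6 : ∀ (Ω : Type) [MeasurableSpace Ω] (μ : Measure Ω) [IsFiniteMeasure μ] (m : ℕ) (g : ℕ → ℕ → Ω → ℂ), Sys μ M m g →
      n6 μ (g 0 0) ≤ (M : ℝ) ^ σ * (M : ℝ) ^ (ε / 9 * (m : ℝ)) * ∑ r ∈ Finset.range (M ^ m), n6 μ (g m r))
    (h12 : ∀ (Ω : Type) [MeasurableSpace Ω] (μ : Measure Ω) [IsFiniteMeasure μ] (m : ℕ) (g : ℕ → ℕ → Ω → ℂ), Sys3 μ M m g →
      n12 μ (g 0 0) ≤ (M : ℝ) ^ σ * (M : ℝ) ^ (ε / 9 * (m : ℝ)) * ∑ r ∈ Finset.range (M ^ m), n12 μ (g m r))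
    (hMε : (2 : ℝ) ^ 80 ≤ (M : ℝ) ^ (10 * ε)) {N : ℕ} (hN : 19 ≤ ε * N) (k : ℕ) :
    ∃ γ : ℝ, 0 ≤ γ ∧ ∀ (Ω : Type) [MeasurableSpace Ω] (μ : Measure Ω) [IsFiniteMeasure μ] (m : ℕ)
      (g : ℕ → ℕ → Ω → ℂ), Sys4 μ M m g →
      Dec4 μ M m g (max (19 / 10 - (k : ℝ) * (1 / (10 * 4 ^ (N + 1)))) ε) ((M : ℝ) ^ γ) := by
  induction k with
  | zero =>
    refine ⟨0, le_rfl, fun Ω _ μ _ m g hg => ?_⟩
    intro s hs j hj
    refine (triv_dec hg hs hj).trans ?_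
    rw [Real.rpow_zero, one_mul]
    refine mul_le_mul_of_nonneg_right ?_ (S4_nonneg _ _ _ _ _ _)
    have hX1 : (1 : ℝ) ≤ M := by exact_mod_cast (by omega : 1 ≤ M)
    apply Real.rpow_le_rpow_of_exponent_le hX1
    have h4 : (0 : ℝ) ≤ (m : ℝ) - s := by
      rw [sub_nonneg]
      exact_mod_cast hs
    refine mul_le_mul_of_nonneg_right ?_ h4
    rw [Nat.cast_zero, zero_mul, sub_zero]
    exact le_max_left _ _
  | succ k ih =>
    obtain ⟨γ, hγ, h⟩ := ih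
    refine ⟨(10 * γ + 3 * σ + 19 * 4 ^ (N + 1) + 73) / 10, by positivity, fun Ω _ μ _ m g hg => ?_⟩
    set x : ℝ := 19 / 10 - (k : ℝ) * (1 / (10 * 4 ^ (N + 1))) with hx
    have hstep := dec_step4 hσ h6 h12 hg hM hε hMε (le_max_right x ε) hγ hN (h Ω μ m g hg)
    have e : max (max x ε - 1 / (10 * 4 ^ (N + 1))) ε =
        max (19 / 10 - ((k + 1 : ℕ) : ℝ) * (1 / (10 * 4 ^ (N + 1)))) ε := by
      have hd : (0 : ℝ) < 1 / (10 * 4 ^ (N + 1)) := by positivity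
      have e1 : 19 / 10 - ((k + 1 : ℕ) : ℝ) * (1 / (10 * 4 ^ (N + 1))) = x - 1 / (10 * 4 ^ (N + 1)) := by
        rw [hx]
        push_cast
        ring
      rw [e1]
      rcases le_total x ε with h3 | h3
      · rw [max_eq_right h3, max_eq_right (by linarith), max_eq_right (by linarith)]
      · rw [max_eq_left h3]
    rw [e] at hstep
    exact hstep

/-- Decoupling of order twenty for abstract systems -/
theorem decoupling4 {ε : ℝ} (hε : 0 < ε) : ∃ M0 : ℕ, 2 ≤ M0 ∧ ∀ M : ℕ, M0 ≤ M → ∃ C : ℝ, 1 ≤ C ∧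
    ∀ (Ω : Type) [MeasurableSpace Ω] (μ : Measure Ω) [IsFiniteMeasure μ] (m : ℕ) (g : ℕ → ℕ → Ω → ℂ), Sys4 μ M m g →
      n20 μ (g 0 0) ≤ C * (M : ℝ) ^ (ε * (m : ℝ)) * ∑ r ∈ Finset.range (M ^ m), n20 μ (g m r) := by
  obtain ⟨M1, hM1, hd6⟩ := decoupling (ε := ε / 9) (by positivity)
  obtain ⟨M2, hM2, hd12⟩ := decoupling3 (ε := ε / 9) (by positivity)
  obtain ⟨N, hN⟩ : ∃ N : ℕ, 19 / ε ≤ N := exists_nat_ge _
  obtain ⟨K, hK⟩ : ∃ K : ℕ, ((2 : ℝ) ^ 80) ^ (1 / (10 * ε)) ≤ K := exists_nat_ge _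
  refine ⟨K + 2 + M1 + M2, by omega, fun M hM => ?_⟩
  have hM2' : 2 ≤ M := by omega
  have hX2 : (2 : ℝ) ≤ M := by exact_mod_cast hM2'
  have hX : (0 : ℝ) < M := by linarith
  obtain ⟨C6, hC6, h6⟩ := hd6 M (by omega)
  obtain ⟨C12, hC12, h12⟩ := hd12 M (by omega)
  have hN' : 19 ≤ ε * N := by
    rw [div_le_iff₀ hε] at hN
    linarith
  have hMε : (2 : ℝ) ^ 80 ≤ (M : ℝ) ^ (10 * ε) := by
    have h1 : ((2 : ℝ) ^ 80) ^ (1 / (10 * ε)) ≤ M := hK.trans (by exact_mod_cast (by omega : K ≤ M))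
    have h2 : (((2 : ℝ) ^ 80) ^ (1 / (10 * ε))) ^ (10 * ε) ≤ (M : ℝ) ^ (10 * ε) :=
      Real.rpow_le_rpow (by positivity) h1 (by positivity)
    rwa [← Real.rpow_mul (by positivity), one_div_mul_cancel (by positivity), Real.rpow_one] at h2
  obtain ⟨σ, hσ, hσ6, hσ12⟩ : ∃ σ : ℝ, 0 ≤ σ ∧ C6 ≤ (M : ℝ) ^ σ ∧ C12 ≤ (M : ℝ) ^ σ := by
    have hC : (1 : ℝ) ≤ max C6 C12 := hC6.trans (le_max_left _ _)
    refine ⟨Real.logb M (max C6 C12), Real.logb_nonneg (by linarith) hC, ?_, ?_⟩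
    · rw [Real.rpow_logb hX (by linarith) (by linarith)]
      exact le_max_left _ _
    · rw [Real.rpow_logb hX (by linarith) (by linarith)]
      exact le_max_right _ _
  have h6' : ∀ (Ω : Type) [MeasurableSpace Ω] (μ : Measure Ω) [IsFiniteMeasure μ] (m : ℕ) (g : ℕ → ℕ → Ω → ℂ), Sys μ M m g →
      n6 μ (g 0 0) ≤ (M : ℝ) ^ σ * (M : ℝ) ^ (ε / 9 * (m : ℝ)) * ∑ r ∈ Finset.range (M ^ m), n6 μ (g m r) := by
    intro Ω _ μ _ m g hg
    refine (h6 Ω μ m g hg).trans ?_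
    have : 0 ≤ ∑ r ∈ Finset.range (M ^ m), n6 μ (g m r) := Finset.sum_nonneg fun r _ => n6_nonneg _ _
    gcongr
  have h12' : ∀ (Ω : Type) [MeasurableSpace Ω] (μ : Measure Ω) [IsFiniteMeasure μ] (m : ℕ) (g : ℕ → ℕ → Ω → ℂ), Sys3 μ M m g →
      n12 μ (g 0 0) ≤ (M : ℝ) ^ σ * (M : ℝ) ^ (ε / 9 * (m : ℝ)) * ∑ r ∈ Finset.range (M ^ m), n12 μ (g m r) := by
    intro Ω _ μ _ m g hg
    refine (h12 Ω μ m g hg).trans ?_
    have : 0 ≤ ∑ r ∈ Finset.range (M ^ m), n12 μ (g m r) := Finset.sum_nonneg fun r _ => n12_nonneg _ _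
    gcongr
  obtain ⟨γ, hγ, h⟩ := dec_iter4 hσ hε hM2' h6' h12' hMε hN' (19 * 4 ^ (N + 1))
  refine ⟨(M : ℝ) ^ γ, Real.one_le_rpow (by linarith) hγ, fun Ω _ μ _ m g hg => ?_⟩
  have h1 := h Ω μ m g hg 0 (Nat.zero_le m) 0 (by simp)
  have h2 : max (19 / 10 - ((19 * 4 ^ (N + 1) : ℕ) : ℝ) * (1 / (10 * 4 ^ (N + 1)))) ε = ε := by
    apply max_eq_right
    have h3 : ((19 * 4 ^ (N + 1) : ℕ) : ℝ) * (1 / (10 * 4 ^ (N + 1))) = 19 / 10 := by
      push_cast
      field_simp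
    rw [h3, sub_self]
    exact hε.le
  rw [h2] at h1
  unfold S4 at h1
  simpa using h1

end Pool.Agent.Helper93.ED
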