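import Pool.Agent.Helper93.ED.Defs

/-!
# ED-E1: elementary facts and inequalities for the twentieth moment
-/

open MeasureTheory Real Set Filter Topology

set_option autoImplicit false

namespace Pool.Agent.Helper93.ED

open Pool.Agent.Helper22.AC
open Pool.Agent.Helper60.DC (intg3)

theorem n20_nonneg {Ω : Type} [MeasurableSpace Ω] (μ : Measure Ω) (f : Ω → ℂ) : 0 ≤ n20 μ f := by
  unfold n20
  exact Real.rpow_nonneg (integral_nonneg fun ω => by positivity) _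

theorem n20_ten {Ω : Type} [MeasurableSpace Ω] (μ : Measure Ω) (f : Ω → ℂ) : n20 μ f ^ 10 = ∫ ω, ‖f ω‖ ^ 20 ∂μ := by
  unfold n20
  have h : 0 ≤ ∫ ω, ‖f ω‖ ^ 20 ∂μ := integral_nonneg fun ω => by positivity
  rw [← Real.rpow_natCast, ← Real.rpow_mul h]
  norm_num

theorem desc_sum4 {Ω : Type} [MeasurableSpace Ω] {μ : Measure Ω} {M m : ℕ} {g : ℕ → ℕ → Ω → ℂ} (hg : Sys4 μ M m g)
    {s t j : ℕ} (h : s + t ≤ m) (hj : j < M ^ s) (ω : Ω) :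
    g s j ω = ∑ r ∈ Finset.range (M ^ t), g (s + t) (M ^ t * j + r) ω := by
  induction t with
  | zero => simp
  | succ t ih =>
    rw [ih (by omega), pow_succ, sum_range_mul']
    refine Finset.sum_congr rfl fun r hr => ?_
    rw [hg.add (s + t) (by omega) _ (desc_lt hj (Finset.mem_range.1 hr)) ω]
    refine Finset.sum_congr rfl fun r' _ => ?_
    have e1 : M * (M ^ t * j + r) + r' = M ^ t * M * j + (M * r + r') := by ring
    rw [e1, add_assoc]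

theorem S4_split {Ω : Type} [MeasurableSpace Ω] (μ : Measure Ω) (M m : ℕ) (g : ℕ → ℕ → Ω → ℂ) {s t : ℕ} (j : ℕ)
    (h : s + t ≤ m) : S4 μ M m g s j = ∑ r ∈ Finset.range (M ^ t), S4 μ M m g (s + t) (M ^ t * j + r) := by
  unfold S4
  obtain ⟨u, hu⟩ : ∃ u, m = s + t + u := ⟨m - (s + t), by omega⟩
  have h1 : m - s = t + u := by omega
  have h2 : m - (s + t) = u := by omega
  rw [h1, h2, pow_add, sum_range_mul']
  refine Finset.sum_congr rfl fun r _ => Finset.sum_congr rfl fun r' _ => ?_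
  have e1 : M ^ t * M ^ u * j + (M ^ u * r + r') = M ^ u * (M ^ t * j + r) + r' := by ring
  rw [e1]

theorem S4_nonneg {Ω : Type} [MeasurableSpace Ω] (μ : Measure Ω) (M m : ℕ) (g : ℕ → ℕ → Ω → ℂ) (s j : ℕ) :
    0 ≤ S4 μ M m g s j := by
  unfold S4
  exact Finset.sum_nonneg fun r _ => n20_nonneg _ _

theorem S4_last {Ω : Type} [MeasurableSpace Ω] (μ : Measure Ω) (M m : ℕ) (g : ℕ → ℕ → Ω → ℂ) (j : ℕ) :
    S4 μ M m g m j = n20 μ (g m j) := by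
  unfold S4
  simp

theorem bil_mono {Ω : Type} [MeasurableSpace Ω] {p : ℕ} {μ : Measure Ω} {M m : ℕ} {g : ℕ → ℕ → Ω → ℂ} {a b₁ b₂ : ℕ}
    {A A' : ℝ} (h : Bil p μ M m g a b₁ b₂ A) (hA : A ≤ A') : Bil p μ M m g a b₁ b₂ A' := by
  intro i hi j hj hij hs
  refine (h i hi j hj hij hs).trans ?_
  have h1 := S4_nonneg μ M m g (a + 1 + b₁) i
  have h2 := S4_nonneg μ M m g (a + 1 + b₂) j
  gcongr

theorem pow_bdd {Ω : Type} {f : Ω → ℂ} (hb : ∃ B : ℝ, ∀ ω, ‖f ω‖ ≤ B) (n : ℕ) :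
    ∃ B : ℝ, 0 ≤ B ∧ ∀ ω, ‖f ω‖ ^ n ≤ B := by
  obtain ⟨B, hB⟩ := hb
  refine ⟨|B| ^ n, by positivity, fun ω => ?_⟩
  exact pow_le_pow_left₀ (norm_nonneg _) ((hB ω).trans (le_abs_self B)) n

/-- Hölder's inequality for mixed moments -/
theorem hmix {Ω : Type} [MeasurableSpace Ω] (μ : Measure Ω) [IsFiniteMeasure μ] {f g : Ω → ℂ} (hf : Measurable f)
    (hg : Measurable g) (hfb : ∃ B : ℝ, ∀ ω, ‖f ω‖ ≤ B) (hgb : ∃ B : ℝ, ∀ ω, ‖g ω‖ ≤ B) {t : ℝ} (ht0 : 0 < t) (ht1 : t < 1)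
    {p q p₁ q₁ p₂ q₂ : ℕ} (hp : t * p₁ + (1 - t) * p₂ = p) (hq : t * q₁ + (1 - t) * q₂ = q) :
    ∫ ω, ‖f ω‖ ^ p * ‖g ω‖ ^ q ∂μ ≤
      (∫ ω, ‖f ω‖ ^ p₁ * ‖g ω‖ ^ q₁ ∂μ) ^ t * (∫ ω, ‖f ω‖ ^ p₂ * ‖g ω‖ ^ q₂ ∂μ) ^ (1 - t) := by
  have ht2 : 0 < 1 - t := by linarith
  have hpq : (1 / t).HolderConjugate (1 / (1 - t)) := by
    rw [Real.holderConjugate_iff]
    constructor
    · rw [lt_div_iff₀ ht0]
      linarith
    · simp
  obtain ⟨B₁, hB₁0, hB₁⟩ := pow_bdd hfb p₁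
  obtain ⟨B₂, hB₂0, hB₂⟩ := pow_bdd hgb q₁
  obtain ⟨B₃, hB₃0, hB₃⟩ := pow_bdd hfb p₂
  obtain ⟨B₄, hB₄0, hB₄⟩ := pow_bdd hgb q₂
  set u : Ω → ℝ := fun ω => (‖f ω‖ ^ p₁ * ‖g ω‖ ^ q₁) ^ t with hu
  set v : Ω → ℝ := fun ω => (‖f ω‖ ^ p₂ * ‖g ω‖ ^ q₂) ^ (1 - t) with hv
  have hum : Measurable u := ((hf.norm.pow_const _).mul (hg.norm.pow_const _)).pow_const _
  have hvm : Measurable v := ((hf.norm.pow_const _).mul (hg.norm.pow_const _)).pow_const _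
  have hu0 : ∀ ω, 0 ≤ u ω := fun ω => by rw [hu]; positivity
  have hv0 : ∀ ω, 0 ≤ v ω := fun ω => by rw [hv]; positivity
  have hub : ∀ ω, ‖u ω‖ ≤ (B₁ * B₂) ^ t := fun ω => by
    rw [Real.norm_eq_abs, abs_of_nonneg (hu0 ω)]
    exact Real.rpow_le_rpow (by positivity) (mul_le_mul (hB₁ ω) (hB₂ ω) (by positivity) hB₁0) ht0.le
  have hvb : ∀ ω, ‖v ω‖ ≤ (B₃ * B₄) ^ (1 - t) := fun ω => by
    rw [Real.norm_eq_abs, abs_of_nonneg (hv0 ω)]
    exact Real.rpow_le_rpow (by positivity) (mul_le_mul (hB₃ ω) (hB₄ ω) (by positivity) hB₃0) ht2.le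
  have h := integral_mul_le_Lp_mul_Lq_of_nonneg (μ := μ) hpq (f := u) (g := v)
    (Eventually.of_forall hu0) (Eventually.of_forall hv0)
    (MemLp.of_bound hum.aestronglyMeasurable _ (Eventually.of_forall hub))
    (MemLp.of_bound hvm.aestronglyMeasurable _ (Eventually.of_forall hvb))
  have e0 : ∀ ω, u ω * v ω = ‖f ω‖ ^ p * ‖g ω‖ ^ q := by
    intro ω
    have e1 : ∀ (x : ℝ) (n : ℕ) (s : ℝ), 0 ≤ x → (x ^ n) ^ s = x ^ ((n : ℝ) * s) := by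
      intro x n s hx
      rw [← Real.rpow_natCast, ← Real.rpow_mul hx]
    have e2 : ∀ (x : ℝ) (a₁ a₂ a₃ : ℕ), 0 ≤ x → t * a₁ + (1 - t) * a₂ = a₃ →
        x ^ ((a₁ : ℝ) * t) * x ^ ((a₂ : ℝ) * (1 - t)) = x ^ a₃ := by
      intro x a₁ a₂ a₃ hx ha
      rw [← Real.rpow_add_of_nonneg hx (by positivity) (by positivity), ← Real.rpow_natCast]
      congr 1
      linarith
    rw [hu, hv]
    simp only
    rw [Real.mul_rpow (by positivity) (by positivity), Real.mul_rpow (by positivity) (by positivity),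
      e1 _ _ _ (norm_nonneg _), e1 _ _ _ (norm_nonneg _), e1 _ _ _ (norm_nonneg _), e1 _ _ _ (norm_nonneg _)]
    rw [mul_mul_mul_comm, e2 _ _ _ _ (norm_nonneg _) hp, e2 _ _ _ _ (norm_nonneg _) hq]
  have e3 : ∀ ω, u ω ^ (1 / t) = ‖f ω‖ ^ p₁ * ‖g ω‖ ^ q₁ := by
    intro ω
    rw [hu]
    simp only
    rw [← Real.rpow_mul (by positivity), mul_one_div_cancel ht0.ne', Real.rpow_one]
  have e4 : ∀ ω, v ω ^ (1 / (1 - t)) = ‖f ω‖ ^ p₂ * ‖g ω‖ ^ q₂ := by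
    intro ω
    rw [hv]
    simp only
    rw [← Real.rpow_mul (by positivity), mul_one_div_cancel ht2.ne', Real.rpow_one]
  simp only [e0, e3, e4, one_div_one_div] at h
  exact h

theorem n20_pow {Ω : Type} [MeasurableSpace Ω] (μ : Measure Ω) (f : Ω → ℂ) {t : ℝ} {k : ℕ} (h : 10 * t = k) :
    (∫ ω, ‖f ω‖ ^ 20 ∂μ) ^ t = n20 μ f ^ k := by
  rw [← n20_ten, ← Real.rpow_natCast, ← Real.rpow_natCast, ← Real.rpow_mul (n20_nonneg _ _)]
  congr 1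

/-- the trivial bounds -/
theorem htriv {Ω : Type} [MeasurableSpace Ω] (μ : Measure Ω) [IsFiniteMeasure μ] {f g : Ω → ℂ} (hf : Measurable f)
    (hg : Measurable g) (hfb : ∃ B : ℝ, ∀ ω, ‖f ω‖ ≤ B) (hgb : ∃ B : ℝ, ∀ ω, ‖g ω‖ ≤ B) {p : ℕ} (hp0 : 0 < p) (hp1 : p < 10) :
    ∫ ω, ‖f ω‖ ^ (2 * p) * ‖g ω‖ ^ (20 - 2 * p) ∂μ ≤ n20 μ f ^ p * n20 μ g ^ (10 - p) := by
  have hp0' : (0 : ℝ) < p := by exact_mod_cast hp0
  have hp1' : (p : ℝ) < 10 := by exact_mod_cast hp1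
  have h := hmix μ hf hg hfb hgb (t := (p : ℝ) / 10) (by positivity) (by linarith) (p := 2 * p) (q := 20 - 2 * p)
    (p₁ := 20) (q₁ := 0) (p₂ := 0) (q₂ := 20) (by push_cast; ring) (by rw [Nat.cast_sub (by omega)]; push_cast; ring)
  simp only [pow_zero, mul_one, one_mul] at h
  rw [n20_pow μ f (k := p) (by ring), n20_pow μ g (k := 10 - p) (by rw [Nat.cast_sub (by omega)]; push_cast; ring)] at h
  exact h

theorem n20_sum_le {Ω : Type} [MeasurableSpace Ω] (μ : Measure Ω) [IsFiniteMeasure μ] (N : ℕ) (f : ℕ → Ω → ℂ)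
    (hm : ∀ r, Measurable (f r)) (hb : ∀ r, ∃ B : ℝ, ∀ ω, ‖f r ω‖ ≤ B) :
    n20 μ (fun ω => ∑ r ∈ Finset.range N, f r ω) ≤ (N : ℝ) ^ (19 / 10 : ℝ) * ∑ r ∈ Finset.range N, n20 μ (f r) := by
  have hint : ∀ r, Integrable (fun ω => ‖f r ω‖ ^ 20) μ := fun r => by
    have := intg3 (μ := μ) (hm r) (hm r) (hb r) (hb r) 20 0
    simpa using this
  have hpt : ∀ ω, ‖∑ r ∈ Finset.range N, f r ω‖ ^ 20 ≤
      (N : ℝ) ^ 19 * ∑ r ∈ Finset.range N, ‖f r ω‖ ^ 20 := by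
    intro ω
    rcases Nat.eq_zero_or_pos N with h0 | hN
    · subst h0
      simp
    have h1 : ‖∑ r ∈ Finset.range N, f r ω‖ ^ 20 ≤ (∑ r ∈ Finset.range N, ‖f r ω‖) ^ 20 :=
      pow_le_pow_left₀ (norm_nonneg _) (norm_sum_le _ _) 20
    have h2 := pow_sum_div_card_le_sum_pow (s := Finset.range N) (f := fun r => ‖f r ω‖)
      (fun r _ => norm_nonneg _) 19
    rw [Finset.card_range, div_le_iff₀ (by positivity)] at h2
    calc ‖∑ r ∈ Finset.range N, f r ω‖ ^ 20 ≤ (∑ r ∈ Finset.range N, ‖f r ω‖) ^ 20 := h1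
      _ ≤ (∑ r ∈ Finset.range N, ‖f r ω‖ ^ 20) * (N : ℝ) ^ 19 := h2
      _ = (N : ℝ) ^ 19 * ∑ r ∈ Finset.range N, ‖f r ω‖ ^ 20 := mul_comm _ _
  have hS0 : 0 ≤ ∑ r ∈ Finset.range N, n20 μ (f r) :=
    Finset.sum_nonneg fun r _ => n20_nonneg μ (f r)
  have h3 : ∫ ω, ‖∑ r ∈ Finset.range N, f r ω‖ ^ 20 ∂μ ≤
      (N : ℝ) ^ 19 * (∑ r ∈ Finset.range N, n20 μ (f r)) ^ 10 := by
    calc ∫ ω, ‖∑ r ∈ Finset.range N, f r ω‖ ^ 20 ∂μ ≤
        ∫ ω, (N : ℝ) ^ 19 * ∑ r ∈ Finset.range N, ‖f r ω‖ ^ 20 ∂μ := by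
          refine integral_mono_of_nonneg (Eventually.of_forall fun ω => by positivity) ?_
            (Eventually.of_forall hpt)
          exact (integrable_finsetSum _ fun r _ => hint r).const_mul _
      _ = (N : ℝ) ^ 19 * ∑ r ∈ Finset.range N, ∫ ω, ‖f r ω‖ ^ 20 ∂μ := by
          rw [integral_const_mul, integral_finsetSum _ fun r _ => hint r]
      _ = (N : ℝ) ^ 19 * ∑ r ∈ Finset.range N, n20 μ (f r) ^ 10 := by
          congr 1
          exact Finset.sum_congr rfl fun r _ => (n20_ten μ (f r)).symm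
      _ ≤ (N : ℝ) ^ 19 * (∑ r ∈ Finset.range N, n20 μ (f r)) ^ 10 := by
          refine mul_le_mul_of_nonneg_left ?_ (by positivity)
          have h4 : ∀ r ∈ Finset.range N, n20 μ (f r) ^ 10 ≤
              n20 μ (f r) * (∑ r ∈ Finset.range N, n20 μ (f r)) ^ 9 := by
            intro r hr
            have h5 : n20 μ (f r) ≤ ∑ r ∈ Finset.range N, n20 μ (f r) :=
              Finset.single_le_sum (f := fun r => n20 μ (f r)) (fun i _ => n20_nonneg μ (f i)) hr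
            have h6 : n20 μ (f r) ^ 9 ≤ (∑ r ∈ Finset.range N, n20 μ (f r)) ^ 9 :=
              pow_le_pow_left₀ (n20_nonneg μ _) h5 9
            calc n20 μ (f r) ^ 10 = n20 μ (f r) * n20 μ (f r) ^ 9 := by ring
              _ ≤ n20 μ (f r) * (∑ r ∈ Finset.range N, n20 μ (f r)) ^ 9 :=
                mul_le_mul_of_nonneg_left h6 (n20_nonneg μ _)
          calc ∑ r ∈ Finset.range N, n20 μ (f r) ^ 10 ≤
              ∑ r ∈ Finset.range N, n20 μ (f r) * (∑ r ∈ Finset.range N, n20 μ (f r)) ^ 9 :=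
                Finset.sum_le_sum h4
            _ = (∑ r ∈ Finset.range N, n20 μ (f r)) ^ 10 := by
                rw [← Finset.sum_mul]
                ring
  have h0 : 0 ≤ ∫ ω, ‖∑ r ∈ Finset.range N, f r ω‖ ^ 20 ∂μ :=
    integral_nonneg fun ω => by positivity
  calc n20 μ (fun ω => ∑ r ∈ Finset.range N, f r ω)
      = (∫ ω, ‖∑ r ∈ Finset.range N, f r ω‖ ^ 20 ∂μ) ^ (1 / 10 : ℝ) := rfl
    _ ≤ ((N : ℝ) ^ 19 * (∑ r ∈ Finset.range N, n20 μ (f r)) ^ 10) ^ (1 / 10 : ℝ) :=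
        Real.rpow_le_rpow h0 h3 (by norm_num)
    _ = (N : ℝ) ^ (19 / 10 : ℝ) * ∑ r ∈ Finset.range N, n20 μ (f r) := by
        rw [Real.mul_rpow (by positivity) (by positivity), ← Real.rpow_natCast,
          ← Real.rpow_natCast, ← Real.rpow_mul (Nat.cast_nonneg _), ← Real.rpow_mul hS0]
        norm_num

end Pool.Agent.Helper93.ED
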