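import Pool.Agent.Helper93.ED.E1

/-!
# ED-E2: the measures `‖G‖^p dμ`; restriction of systems to descendants
-/

open MeasureTheory Real Set Filter Topology
open scoped NNReal ENNReal

set_option autoImplicit false

namespace Pool.Agent.Helper93.ED

open Pool.Agent.Helper22.AC
open Pool.Agent.Helper60.DC (Sys3)

theorem int_wp {Ω : Type} [MeasurableSpace Ω] {μ : Measure Ω} {G : Ω → ℂ} (p : ℕ) (hG : Measurable G) {E : Type*}
    [NormedAddCommGroup E] [NormedSpace ℝ E] (F : Ω → E) :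
    ∫ ω, F ω ∂(wp p μ G) = ∫ ω, (‖G ω‖ ^ p : ℝ) • F ω ∂μ := by
  unfold wp
  rw [integral_withDensity_eq_integral_smul (f := fun ω => ‖G ω‖₊ ^ p) (hG.nnnorm.pow_const p) F]
  congr 1

theorem fin_wp {Ω : Type} [MeasurableSpace Ω] {μ : Measure Ω} [IsFiniteMeasure μ] {G : Ω → ℂ} (p : ℕ)
    (hb : ∃ B : ℝ, ∀ ω, ‖G ω‖ ≤ B) : IsFiniteMeasure (wp p μ G) := by
  obtain ⟨B, hB⟩ := hb
  unfold wp
  apply isFiniteMeasure_withDensity
  have h1 : ∫⁻ ω, ((‖G ω‖₊ ^ p : ℝ≥0) : ℝ≥0∞) ∂μ ≤ ∫⁻ _, (((Real.toNNReal B) ^ p : ℝ≥0) : ℝ≥0∞) ∂μ := by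
    apply lintegral_mono
    intro ω
    change ((‖G ω‖₊ ^ p : ℝ≥0) : ℝ≥0∞) ≤ (((Real.toNNReal B) ^ p : ℝ≥0) : ℝ≥0∞)
    have h2 : ‖G ω‖₊ ≤ Real.toNNReal B := by
      rw [← NNReal.coe_le_coe, coe_nnnorm]
      exact (hB ω).trans (Real.le_coe_toNNReal B)
    have h3 : ‖G ω‖₊ ^ p ≤ (Real.toNNReal B) ^ p := pow_le_pow_left₀ (zero_le) h2 p
    exact_mod_cast h3
  refine ne_top_of_le_ne_top ?_ h1
  rw [lintegral_const]
  exact ENNReal.mul_ne_top ENNReal.coe_ne_top (measure_ne_top μ _)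

theorem idx_div {M p q i x : ℕ} (hM : 0 < M) : (M ^ (p + q) * i + x) / M ^ q = M ^ p * i + x / M ^ q := by
  have e : M ^ (p + q) * i = M ^ q * (M ^ p * i) := by rw [pow_add]; ring
  rw [e, Nat.mul_add_div (pow_pos hM q)]

private theorem q1 {M i a t x : ℕ} (hM : 0 < M) : (M ^ (a + 1 + t) * i + x) / M ^ (t + 1) = M ^ a * i + x / M ^ (t + 1) := by
  have e : a + 1 + t = a + (t + 1) := by ring
  rw [e, idx_div hM]

private theorem q2 {M i a t x : ℕ} (hM : 0 < M) : (M ^ (a + 1 + t) * i + x) / M ^ t = M ^ (a + 1) * i + x / M ^ t := by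
  rw [idx_div hM]

private theorem sepadd {x i j : ℕ} (h : sep i j) : sep (x + i) (x + j) := by
  unfold sep at *
  omega

theorem sys_shift {Ω : Type} [MeasurableSpace Ω] {μ : Measure Ω} {M D : ℕ} {g : ℕ → ℕ → Ω → ℂ} (hg : Sys μ M D g)
    (hM : 1 ≤ M) {s₀ i : ℕ} (hs : s₀ ≤ D) (hi : i < M ^ s₀) :
    Sys μ M (D - s₀) (fun s r => g (s₀ + s) (M ^ s * i + r)) := by
  have hMp : 0 < M := hM
  refine ⟨fun s r => hg.meas _ _, fun s r => hg.bdd _ _, ?_, ?_⟩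
  · intro s hs' r hr ω
    have h1 := hg.add (s₀ + s) (by omega) (M ^ s * i + r) (desc_lt hi hr) ω
    rw [h1]
    refine Finset.sum_congr rfl fun r' _ => ?_
    have e1 : M * (M ^ s * i + r) + r' = M ^ (s + 1) * i + (M * r + r') := by rw [pow_succ]; ring
    rw [e1]
    rfl
  · intro a b c hbc hb hc k hk i1 hi1 i2 hi2 hki hii hsep hsep'
    have eA : ∀ t, s₀ + (a + 1 + t) = s₀ + a + 1 + t := fun t => by ring
    simp only [eA]
    refine hg.orth (s₀ + a) b c hbc (by omega) (by omega) (M ^ (a + 1 + b) * i + k) (by rw [← eA]; exact desc_lt hi hk)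
      (M ^ (a + 1 + c) * i + i1) (by rw [← eA]; exact desc_lt hi hi1)
      (M ^ (a + 1 + c) * i + i2) (by rw [← eA]; exact desc_lt hi hi2) ?_ ?_ ?_ (sepadd hsep')
    · rw [q1 hMp, q1 hMp, hki]
    · rw [q2 hMp, q2 hMp, hii]
    · rw [q2 hMp, q2 hMp]
      exact sepadd hsep

theorem sys3_shift {Ω : Type} [MeasurableSpace Ω] {μ : Measure Ω} {M D : ℕ} {g : ℕ → ℕ → Ω → ℂ} (hg : Sys3 μ M D g)
    (hM : 1 ≤ M) {s₀ i : ℕ} (hs : s₀ ≤ D) (hi : i < M ^ s₀) :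
    Sys3 μ M (D - s₀) (fun s r => g (s₀ + s) (M ^ s * i + r)) := by
  have hMp : 0 < M := hM
  refine ⟨fun s r => hg.meas _ _, fun s r => hg.bdd _ _, ?_, ?_, ?_⟩
  · intro s hs' r hr ω
    have h1 := hg.add (s₀ + s) (by omega) (M ^ s * i + r) (desc_lt hi hr) ω
    rw [h1]
    refine Finset.sum_congr rfl fun r' _ => ?_
    have e1 : M * (M ^ s * i + r) + r' = M ^ (s + 1) * i + (M * r + r') := by rw [pow_succ]; ring
    rw [e1]
    rfl
  · intro a b c hbc hb hc k hk i1 hi1 i2 hi2 hki hii hsep hsep'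
    have eA : ∀ t, s₀ + (a + 1 + t) = s₀ + a + 1 + t := fun t => by ring
    simp only [eA]
    refine hg.orth1 (s₀ + a) b c hbc (by omega) (by omega) (M ^ (a + 1 + b) * i + k) (by rw [← eA]; exact desc_lt hi hk)
      (M ^ (a + 1 + c) * i + i1) (by rw [← eA]; exact desc_lt hi hi1)
      (M ^ (a + 1 + c) * i + i2) (by rw [← eA]; exact desc_lt hi hi2) ?_ ?_ ?_ (sepadd hsep')
    · rw [q1 hMp, q1 hMp, hki]
    · rw [q2 hMp, q2 hMp, hii]
    · rw [q2 hMp, q2 hMp]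
      exact sepadd hsep
  · intro a b A b' c' haA hcb hb hc hm J hJ k hk i1 hi1 i2 hi2 hki hii hsep hsep' hJi hJs
    have eA : ∀ x t, s₀ + (x + 1 + t) = s₀ + x + 1 + t := fun x t => by ring
    simp only [eA]
    have e1 : s₀ + A - (s₀ + a) = A - a := by omega
    have e2 : s₀ + A - (s₀ + a + 1) = A - (a + 1) := by omega
    obtain ⟨w, hw⟩ : ∃ w, A = a + 1 + w := ⟨A - (a + 1), by omega⟩
    have e3 : A - a = w + 1 := by omega
    have e4 : A - (a + 1) = w := by omega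
    refine hg.orth2 (s₀ + a) b (s₀ + A) b' c' (by omega) hcb (by omega) (by omega) (by omega)
      (M ^ (a + 1 + b) * i + J) (by rw [← eA]; exact desc_lt hi hJ)
      (M ^ (A + 1 + b') * i + k) (by rw [← eA]; exact desc_lt hi hk)
      (M ^ (A + 1 + c') * i + i1) (by rw [← eA]; exact desc_lt hi hi1)
      (M ^ (A + 1 + c') * i + i2) (by rw [← eA]; exact desc_lt hi hi2) ?_ ?_ ?_ (sepadd hsep') ?_ ?_
    · rw [q1 hMp, q1 hMp, hki]
    · rw [q2 hMp, q2 hMp, hii]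
    · rw [q2 hMp, q2 hMp]
      exact sepadd hsep
    · rw [e1, q1 hMp, q1 hMp, ← hJi, e3]
      have e5 : A = a + (w + 1) := by omega
      rw [e5, idx_div hMp]
    · rw [e2, q1 hMp, q2 hMp, e4]
      rw [e4] at hJs
      rw [hw, idx_div hMp]
      exact sepadd hJs

end Pool.Agent.Helper93.ED
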