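import Pool.Agent.Helper93.ED.E2

/-!
# ED-E3: the three decoupling steps for the first factor
-/

open MeasureTheory Real Set Filter Topology
open scoped NNReal ENNReal

set_option autoImplicit false

namespace Pool.Agent.Helper93.ED

open Pool.Agent.Helper22.AC
open Pool.Agent.Helper60.DC (Sys3 n12 n12_nonneg n12_six orth_expand)

/-- type `(2, 18)`: orthogonality -/
theorem bil1_key {Ω : Type} [MeasurableSpace Ω] {μ : Measure Ω} [IsFiniteMeasure μ] {M m : ℕ} {g : ℕ → ℕ → Ω → ℂ}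
    (hg : Sys4 μ M m g) {a b b₁ c : ℕ} {A : ℝ} (hc : c + 1 ≤ 4 * b) (hb : b₁ ≤ c)
    (h1 : a + 1 + b ≤ m) (h2 : a + 1 + c ≤ m) (h : Bil 1 μ M m g a c b A) : Bil 1 μ M m g a b₁ b (3 * A) := by
  intro i hi j hj hij hsep
  obtain ⟨t, rfl⟩ : ∃ t, c = b₁ + t := ⟨c - b₁, by omega⟩
  have hst : a + 1 + b₁ + t = a + 1 + (b₁ + t) := by ring
  have hlt : ∀ r, r < M ^ t → M ^ t * i + r < M ^ (a + 1 + (b₁ + t)) := by
    intro r hr
    rw [← hst]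
    exact desc_lt hi hr
  have hdiv : ∀ r, r < M ^ t → (M ^ t * i + r) / M ^ (b₁ + t) = i / M ^ b₁ := by
    intro r hr
    rw [add_comm b₁ t, pow_add, ← Nat.div_div_eq_div_mul, desc_div hr]
  have hdiv1 : ∀ r, r < M ^ t → (M ^ t * i + r) / M ^ (b₁ + t + 1) = i / M ^ (b₁ + 1) := by
    intro r hr
    have : b₁ + t + 1 = t + (b₁ + 1) := by ring
    rw [this, pow_add, ← Nat.div_div_eq_div_mul, desc_div hr]
  have hWb : ∃ B : ℝ, ∀ ω, ‖g (a + 1 + b) j ω‖ ^ 18 ≤ B := by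
    obtain ⟨B, hB⟩ := hg.bdd (a + 1 + b) j
    exact ⟨B ^ 18, fun ω => pow_le_pow_left₀ (norm_nonneg _) (hB ω) 18⟩
  have hmain := orth_expand (μ := μ) (M ^ t) (fun r => g (a + 1 + (b₁ + t)) (M ^ t * i + r))
    (fun ω => ‖g (a + 1 + b) j ω‖ ^ 18) (fun r => hg.meas _ _) (fun r => hg.bdd _ _)
    ((hg.meas _ _).norm.pow_const 18) (fun ω => by positivity) hWb
    (fun r hr r' hr' hs => hg.orth a b (b₁ + t) hc h1 h2 j hj _ (hlt r hr) _ (hlt r' hr')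
        (by rw [hdiv1 r hr, hij]) (by rw [hdiv r hr, hdiv r' hr']) (by rw [hdiv r hr]; exact hsep)
        (by unfold sep at hs ⊢; omega))
  have e1 : ∫ ω, ‖g (a + 1 + b₁) i ω‖ ^ 2 * ‖g (a + 1 + b) j ω‖ ^ 18 ∂μ =
      ∫ ω, ‖∑ r ∈ Finset.range (M ^ t), g (a + 1 + (b₁ + t)) (M ^ t * i + r) ω‖ ^ 2 *
        ‖g (a + 1 + b) j ω‖ ^ 18 ∂μ := by
    congr 1
    funext ω
    rw [desc_sum4 hg (s := a + 1 + b₁) (t := t) (by omega) hi ω, hst]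
  change ∫ ω, ‖g (a + 1 + b₁) i ω‖ ^ 2 * ‖g (a + 1 + b) j ω‖ ^ 18 ∂μ ≤
    3 * A * S4 μ M m g (a + 1 + b₁) i ^ 1 * S4 μ M m g (a + 1 + b) j ^ 9
  rw [e1]
  refine hmain.trans ?_
  calc 3 * ∑ r ∈ Finset.range (M ^ t), ∫ ω, ‖g (a + 1 + (b₁ + t)) (M ^ t * i + r) ω‖ ^ 2 *
          ‖g (a + 1 + b) j ω‖ ^ 18 ∂μ
      ≤ 3 * ∑ r ∈ Finset.range (M ^ t), A * S4 μ M m g (a + 1 + (b₁ + t)) (M ^ t * i + r) ^ 1 *
          S4 μ M m g (a + 1 + b) j ^ 9 := by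
        refine mul_le_mul_of_nonneg_left (Finset.sum_le_sum fun r hr => ?_) (by norm_num)
        rw [Finset.mem_range] at hr
        exact h _ (hlt r hr) j hj (by rw [hdiv1 r hr, hij]) (by rw [hdiv r hr]; exact hsep)
    _ = 3 * A * S4 μ M m g (a + 1 + b₁) i ^ 1 * S4 μ M m g (a + 1 + b) j ^ 9 := by
        simp only [pow_one]
        rw [S4_split μ M m g (s := a + 1 + b₁) (t := t) i (by omega), ← Finset.sum_mul,
          ← Finset.mul_sum, hst]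
        ring

private theorem real_key {p R : ℕ} (hp : p ≠ 0) {x : ℝ} {y s : ℕ → ℝ} {K W : ℝ} (hK : 0 ≤ K) (hW : 0 ≤ W) (hx0 : 0 ≤ x)
    (hy0 : ∀ r, 0 ≤ y r) (hs0 : ∀ r, 0 ≤ s r) (h : x ≤ K * ∑ r ∈ Finset.range R, y r)
    (hy : ∀ r < R, y r ^ p ≤ W * s r ^ p) : x ^ p ≤ K ^ p * (W * (∑ r ∈ Finset.range R, s r) ^ p) := by
  obtain ⟨w, hw0, hw⟩ : ∃ w : ℝ, 0 ≤ w ∧ w ^ p = W :=
    ⟨W ^ (1 / (p : ℝ)), Real.rpow_nonneg hW _, by
      rw [← Real.rpow_natCast, ← Real.rpow_mul hW, one_div_mul_cancel (by exact_mod_cast hp), Real.rpow_one]⟩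
  have h1 : ∀ r ∈ Finset.range R, y r ≤ w * s r := by
    intro r hr
    have h2 := hy r (Finset.mem_range.1 hr)
    rw [← hw, ← mul_pow] at h2
    exact (pow_le_pow_iff_left₀ (hy0 r) (mul_nonneg hw0 (hs0 r)) hp).1 h2
  have h2 : x ≤ K * (w * ∑ r ∈ Finset.range R, s r) := by
    refine h.trans (mul_le_mul_of_nonneg_left ?_ hK)
    rw [Finset.mul_sum]
    exact Finset.sum_le_sum h1
  refine (pow_le_pow_left₀ hx0 h2 p).trans (le_of_eq ?_)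
  rw [mul_pow, mul_pow, hw]

private theorem sub_idx {Ω : Type} (g : ℕ → ℕ → Ω → ℂ) {M a b₁ i : ℕ} :
    (fun s r => g (a + 1 + (b₁ + s)) (M ^ (b₁ + s) * (i / M ^ b₁) + (M ^ s * (i % M ^ b₁) + r))) =
      fun s r => g (a + 1 + b₁ + s) (M ^ s * i + r) := by
  funext s r
  have e1 : a + 1 + (b₁ + s) = a + 1 + b₁ + s := by ring
  have e2 : M ^ (b₁ + s) * (i / M ^ b₁) + (M ^ s * (i % M ^ b₁) + r) = M ^ s * i + r := by
    have h := Nat.div_add_mod i (M ^ b₁)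
    calc M ^ (b₁ + s) * (i / M ^ b₁) + (M ^ s * (i % M ^ b₁) + r) =
        M ^ s * (M ^ b₁ * (i / M ^ b₁) + i % M ^ b₁) + r := by rw [pow_add]; ring
      _ = _ := by rw [h]
  rw [e1, e2]

private theorem anc_lt {M a b₁ i : ℕ} (hi : i < M ^ (a + 1 + b₁)) : i / M ^ b₁ < M ^ (a + 1) := by
  apply Nat.div_lt_of_lt_mul
  rwa [← pow_add, add_comm b₁]

/-- type `(6, 14)` -/
theorem bil3_key {Ω : Type} [MeasurableSpace Ω] {μ : Measure Ω} [IsFiniteMeasure μ] {M m : ℕ} {g : ℕ → ℕ → Ω → ℂ}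
    {Cs es : ℝ} (hCs : 0 ≤ Cs)
    (h6 : ∀ (Ω : Type) [MeasurableSpace Ω] (μ : Measure Ω) [IsFiniteMeasure μ] (m : ℕ) (g : ℕ → ℕ → Ω → ℂ), Sys μ M m g →
      n6 μ (g 0 0) ≤ Cs * (M : ℝ) ^ (es * (m : ℝ)) * ∑ r ∈ Finset.range (M ^ m), n6 μ (g m r))
    (hg : Sys4 μ M m g) (hM : 1 ≤ M) {a b b₁ D : ℕ} {A : ℝ} (hA : 0 ≤ A) (hD : 2 * D ≤ 3 * b) (hb : b₁ ≤ D)
    (hm1 : a + 1 + b ≤ m) (hm2 : a + 1 + D ≤ m) (h : Bil 3 μ M m g a D b A) :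
    Bil 3 μ M m g a b₁ b ((Cs * (M : ℝ) ^ (es * ((D - b₁ : ℕ) : ℝ))) ^ 3 * A) := by
  intro i hi j hj hij hs
  set G : Ω → ℂ := g (a + 1 + b) j with hG
  have hGm : Measurable G := hg.meas _ _
  have hfin : IsFiniteMeasure (wp 14 μ G) := fin_wp 14 (hg.bdd _ _)
  have hMb : 0 < M ^ b₁ := pow_pos hM _
  have hsub := sys_shift (hg.low2 a b D hD hm1 hm2 (i / M ^ b₁) (anc_lt hi) j hj
    (by rw [Nat.div_div_eq_div_mul, ← pow_succ]; exact hij) hs) hM hb (Nat.mod_lt i hMb)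
  have hsub' : Sys (wp 14 μ G) M (D - b₁) (fun s r => g (a + 1 + b₁ + s) (M ^ s * i + r)) := by
    rw [← sub_idx g (M := M) (a := a) (b₁ := b₁) (i := i)]
    exact hsub
  have hdec := h6 Ω (wp 14 μ G) (D - b₁) _ hsub'
  simp only [add_zero, pow_zero, one_mul] at hdec
  obtain ⟨t, rfl⟩ : ∃ t, D = b₁ + t := ⟨D - b₁, by omega⟩
  have hbt : b₁ + t - b₁ = t := by omega
  rw [hbt] at hdec ⊢
  have hst : a + 1 + b₁ + t = a + 1 + (b₁ + t) := by ring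
  have hlt : ∀ r, r < M ^ t → M ^ t * i + r < M ^ (a + 1 + (b₁ + t)) := by
    intro r hr
    rw [← hst]
    exact desc_lt hi hr
  have hdiv : ∀ r, r < M ^ t → (M ^ t * i + r) / M ^ (b₁ + t) = i / M ^ b₁ := by
    intro r hr
    rw [add_comm b₁ t, pow_add, ← Nat.div_div_eq_div_mul, desc_div hr]
  have hdiv1 : ∀ r, r < M ^ t → (M ^ t * i + r) / M ^ (b₁ + t + 1) = i / M ^ (b₁ + 1) := by
    intro r hr
    have : b₁ + t + 1 = t + (b₁ + 1) := by ring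
    rw [this, pow_add, ← Nat.div_div_eq_div_mul, desc_div hr]
  have hcube : ∀ f : Ω → ℂ, n6 (wp 14 μ G) f ^ 3 = ∫ ω, ‖f ω‖ ^ 6 * ‖G ω‖ ^ 14 ∂μ := by
    intro f
    rw [n6_cube, int_wp 14 hGm]
    congr 1
    funext ω
    rw [smul_eq_mul, mul_comm]
  have hS := S4_nonneg μ M m g (a + 1 + b) j
  have hreal := real_key (p := 3) (R := M ^ t) (by norm_num) (x := n6 (wp 14 μ G) (g (a + 1 + b₁) i))
    (y := fun r => n6 (wp 14 μ G) (g (a + 1 + b₁ + t) (M ^ t * i + r)))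
    (s := fun r => S4 μ M m g (a + 1 + b₁ + t) (M ^ t * i + r))
    (K := Cs * (M : ℝ) ^ (es * (t : ℝ))) (W := A * S4 μ M m g (a + 1 + b) j ^ 7) (by positivity) (by positivity)
    (n6_nonneg _ _) (fun r => n6_nonneg _ _) (fun r => S4_nonneg _ _ _ _ _ _) hdec (by
      intro r hr
      rw [hcube, hst]
      have h2 := h (M ^ t * i + r) (hlt r hr) j hj (by rw [hdiv1 r hr, hij]) (by rw [hdiv r hr]; exact hs)
      refine h2.trans (le_of_eq ?_)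
      change A * S4 μ M m g (a + 1 + (b₁ + t)) (M ^ t * i + r) ^ 3 * S4 μ M m g (a + 1 + b) j ^ 7 = _
      ring)
  rw [hcube, ← S4_split μ M m g (s := a + 1 + b₁) (t := t) i (by omega)] at hreal
  refine hreal.trans (le_of_eq ?_)
  change _ = (Cs * (M : ℝ) ^ (es * (t : ℝ))) ^ 3 * A * S4 μ M m g (a + 1 + b₁) i ^ 3 * S4 μ M m g (a + 1 + b) j ^ 7
  ring

/-- type `(12, 8)` -/
theorem bil6_key {Ω : Type} [MeasurableSpace Ω] {μ : Measure Ω} [IsFiniteMeasure μ] {M m : ℕ} {g : ℕ → ℕ → Ω → ℂ}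
    {Cs es : ℝ} (hCs : 0 ≤ Cs)
    (h12 : ∀ (Ω : Type) [MeasurableSpace Ω] (μ : Measure Ω) [IsFiniteMeasure μ] (m : ℕ) (g : ℕ → ℕ → Ω → ℂ), Sys3 μ M m g →
      n12 μ (g 0 0) ≤ Cs * (M : ℝ) ^ (es * (m : ℝ)) * ∑ r ∈ Finset.range (M ^ m), n12 μ (g m r))
    (hg : Sys4 μ M m g) (hM : 1 ≤ M) {a b b₁ D : ℕ} {A : ℝ} (hA : 0 ≤ A) (hD : 3 * D ≤ 2 * b) (hb : b₁ ≤ D)
    (hm1 : a + 1 + b ≤ m) (hm2 : a + 1 + D ≤ m) (h : Bil 6 μ M m g a D b A) :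
    Bil 6 μ M m g a b₁ b ((Cs * (M : ℝ) ^ (es * ((D - b₁ : ℕ) : ℝ))) ^ 6 * A) := by
  intro i hi j hj hij hs
  set G : Ω → ℂ := g (a + 1 + b) j with hG
  have hGm : Measurable G := hg.meas _ _
  have hfin : IsFiniteMeasure (wp 8 μ G) := fin_wp 8 (hg.bdd _ _)
  have hMb : 0 < M ^ b₁ := pow_pos hM _
  have hsub := sys3_shift (hg.low3 a b D hD hm1 hm2 (i / M ^ b₁) (anc_lt hi) j hj
    (by rw [Nat.div_div_eq_div_mul, ← pow_succ]; exact hij) hs) hM hb (Nat.mod_lt i hMb)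
  have hsub' : Sys3 (wp 8 μ G) M (D - b₁) (fun s r => g (a + 1 + b₁ + s) (M ^ s * i + r)) := by
    rw [← sub_idx g (M := M) (a := a) (b₁ := b₁) (i := i)]
    exact hsub
  have hdec := h12 Ω (wp 8 μ G) (D - b₁) _ hsub'
  simp only [add_zero, pow_zero, one_mul] at hdec
  obtain ⟨t, rfl⟩ : ∃ t, D = b₁ + t := ⟨D - b₁, by omega⟩
  have hbt : b₁ + t - b₁ = t := by omega
  rw [hbt] at hdec ⊢
  have hst : a + 1 + b₁ + t = a + 1 + (b₁ + t) := by ring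
  have hlt : ∀ r, r < M ^ t → M ^ t * i + r < M ^ (a + 1 + (b₁ + t)) := by
    intro r hr
    rw [← hst]
    exact desc_lt hi hr
  have hdiv : ∀ r, r < M ^ t → (M ^ t * i + r) / M ^ (b₁ + t) = i / M ^ b₁ := by
    intro r hr
    rw [add_comm b₁ t, pow_add, ← Nat.div_div_eq_div_mul, desc_div hr]
  have hdiv1 : ∀ r, r < M ^ t → (M ^ t * i + r) / M ^ (b₁ + t + 1) = i / M ^ (b₁ + 1) := by
    intro r hr
    have : b₁ + t + 1 = t + (b₁ + 1) := by ring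
    rw [this, pow_add, ← Nat.div_div_eq_div_mul, desc_div hr]
  have hsix : ∀ f : Ω → ℂ, n12 (wp 8 μ G) f ^ 6 = ∫ ω, ‖f ω‖ ^ 12 * ‖G ω‖ ^ 8 ∂μ := by
    intro f
    rw [n12_six, int_wp 8 hGm]
    congr 1
    funext ω
    rw [smul_eq_mul, mul_comm]
  have hS := S4_nonneg μ M m g (a + 1 + b) j
  have hreal := real_key (p := 6) (R := M ^ t) (by norm_num) (x := n12 (wp 8 μ G) (g (a + 1 + b₁) i))
    (y := fun r => n12 (wp 8 μ G) (g (a + 1 + b₁ + t) (M ^ t * i + r)))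
    (s := fun r => S4 μ M m g (a + 1 + b₁ + t) (M ^ t * i + r))
    (K := Cs * (M : ℝ) ^ (es * (t : ℝ))) (W := A * S4 μ M m g (a + 1 + b) j ^ 4) (by positivity) (by positivity)
    (n12_nonneg _ _) (fun r => n12_nonneg _ _) (fun r => S4_nonneg _ _ _ _ _ _) hdec (by
      intro r hr
      rw [hsix, hst]
      have h2 := h (M ^ t * i + r) (hlt r hr) j hj (by rw [hdiv1 r hr, hij]) (by rw [hdiv r hr]; exact hs)
      refine h2.trans (le_of_eq ?_)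
      change A * S4 μ M m g (a + 1 + (b₁ + t)) (M ^ t * i + r) ^ 6 * S4 μ M m g (a + 1 + b) j ^ 4 = _
      ring)
  rw [hsix, ← S4_split μ M m g (s := a + 1 + b₁) (t := t) i (by omega)] at hreal
  refine hreal.trans (le_of_eq ?_)
  change _ = (Cs * (M : ℝ) ^ (es * (t : ℝ))) ^ 6 * A * S4 μ M m g (a + 1 + b₁) i ^ 6 * S4 μ M m g (a + 1 + b) j ^ 4
  ring

end Pool.Agent.Helper93.ED
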