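import Pool.Agent.Helper93.ED.E3

/-!
# ED-E4: the chain of bilinear inequalities of order twenty
-/

open MeasureTheory Real Set Filter Topology

set_option autoImplicit false

namespace Pool.Agent.Helper93.ED

open Pool.Agent.Helper22.AC
open Pool.Agent.Helper60.DC (Sys3 n12)

theorem rmix {X u v I₁ I₂ e₁ e₂ t : ℝ} (hX : 0 < X) (hu : 0 ≤ u) (hv : 0 ≤ v) (h10 : 0 ≤ I₁) (h20 : 0 ≤ I₂) (ht0 : 0 < t)
    (ht1 : t < 1) {a₁ b₁ a₂ b₂ a b : ℕ} (ha : t * a₁ + (1 - t) * a₂ = a) (hb : t * b₁ + (1 - t) * b₂ = b)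
    (h1 : I₁ ≤ X ^ e₁ * u ^ a₁ * v ^ b₁) (h2 : I₂ ≤ X ^ e₂ * u ^ a₂ * v ^ b₂) :
    I₁ ^ t * I₂ ^ (1 - t) ≤ X ^ (t * e₁ + (1 - t) * e₂) * u ^ a * v ^ b := by
  have ht2 : 0 < 1 - t := by linarith
  have e1 : ∀ (x : ℝ) (n : ℕ) (s : ℝ), 0 ≤ x → (x ^ n) ^ s = x ^ ((n : ℝ) * s) := by
    intro x n s hx
    rw [← Real.rpow_natCast, ← Real.rpow_mul hx]
  have e2 : ∀ (x : ℝ) (c₁ c₂ c₃ : ℕ), 0 ≤ x → t * c₁ + (1 - t) * c₂ = c₃ →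
      x ^ ((c₁ : ℝ) * t) * x ^ ((c₂ : ℝ) * (1 - t)) = x ^ c₃ := by
    intro x c₁ c₂ c₃ hx hc
    rw [← Real.rpow_add_of_nonneg hx (by positivity) (by positivity), ← Real.rpow_natCast]
    congr 1
    linarith
  have h3 := Real.rpow_le_rpow h10 h1 ht0.le
  have h4 := Real.rpow_le_rpow h20 h2 ht2.le
  refine (mul_le_mul h3 h4 (by positivity) (by positivity)).trans (le_of_eq ?_)
  rw [Real.mul_rpow (by positivity) (by positivity), Real.mul_rpow (by positivity) (by positivity),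
    Real.mul_rpow (by positivity) (by positivity), Real.mul_rpow (by positivity) (by positivity),
    e1 _ _ _ hu, e1 _ _ _ hu, e1 _ _ _ hv, e1 _ _ _ hv, ← Real.rpow_mul hX.le, ← Real.rpow_mul hX.le]
  rw [← e2 u a₁ a₂ a hu ha, ← e2 v b₁ b₂ b hv hb]
  have e3 : X ^ (t * e₁ + (1 - t) * e₂) = X ^ (e₁ * t) * X ^ (e₂ * (1 - t)) := by
    rw [← Real.rpow_add hX]
    congr 1
    ring
  rw [e3]
  ring

section steps

variable {Ω : Type} [MeasurableSpace Ω] {μ : Measure Ω} [IsFiniteMeasure μ] {M m : ℕ} {g : ℕ → ℕ → Ω → ℂ}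

theorem step1 (hg : Sys4 μ M m g) (hM : 1 ≤ M) {a b c : ℕ} {e d : ℝ} (h : Bil 6 μ M m g a b c ((M : ℝ) ^ e))
    (hn : ∀ j < M ^ (a + 1 + b), n20 μ (g (a + 1 + b) j) ≤ (M : ℝ) ^ d * S4 μ M m g (a + 1 + b) j) :
    Bil 1 μ M m g a c b ((M : ℝ) ^ (e / 4 + 15 / 2 * d)) := by
  intro i hi j hj hij hs
  have hX : (0 : ℝ) < M := by exact_mod_cast hM
  have h1 := hmix μ (hg.meas (a + 1 + c) i) (hg.meas (a + 1 + b) j) (hg.bdd _ _) (hg.bdd _ _) (t := 1 / 4)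
    (by norm_num) (by norm_num) (p := 2) (q := 18) (p₁ := 8) (q₁ := 12) (p₂ := 0) (q₂ := 20) (by norm_num) (by norm_num)
  refine h1.trans ?_
  have h2 : ∫ ω, ‖g (a + 1 + c) i ω‖ ^ 8 * ‖g (a + 1 + b) j ω‖ ^ 12 ∂μ ≤
      (M : ℝ) ^ e * S4 μ M m g (a + 1 + c) i ^ 4 * S4 μ M m g (a + 1 + b) j ^ 6 := by
    have h3 := h j hj i hi hij.symm hs.symm
    have h4 : ∫ ω, ‖g (a + 1 + c) i ω‖ ^ 8 * ‖g (a + 1 + b) j ω‖ ^ 12 ∂μ =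
        ∫ ω, ‖g (a + 1 + b) j ω‖ ^ (2 * 6) * ‖g (a + 1 + c) i ω‖ ^ (20 - 2 * 6) ∂μ := by
      congr 1
      funext ω
      change _ = ‖g (a + 1 + b) j ω‖ ^ 12 * ‖g (a + 1 + c) i ω‖ ^ 8
      ring
    rw [h4]
    refine h3.trans (le_of_eq ?_)
    change (M : ℝ) ^ e * S4 μ M m g (a + 1 + b) j ^ 6 * S4 μ M m g (a + 1 + c) i ^ 4 = _
    ring
  have h5 : ∫ ω, ‖g (a + 1 + c) i ω‖ ^ 0 * ‖g (a + 1 + b) j ω‖ ^ 20 ∂μ ≤
      (M : ℝ) ^ (10 * d) * S4 μ M m g (a + 1 + c) i ^ 0 * S4 μ M m g (a + 1 + b) j ^ 10 := by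
    simp only [pow_zero, one_mul, mul_one]
    rw [← n20_ten]
    refine (pow_le_pow_left₀ (n20_nonneg _ _) (hn j hj) 10).trans (le_of_eq ?_)
    rw [mul_pow, ← Real.rpow_natCast ((M : ℝ) ^ d), ← Real.rpow_mul hX.le]
    congr 2
    push_cast
    ring
  have h6 := rmix hX (S4_nonneg μ M m g (a + 1 + c) i) (S4_nonneg μ M m g (a + 1 + b) j)
    (integral_nonneg fun ω => by positivity) (integral_nonneg fun ω => by positivity) (t := 1 / 4) (by norm_num)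
    (by norm_num) (a := 1) (b := 9) (by norm_num) (by norm_num) h2 h5
  refine h6.trans (le_of_eq ?_)
  change _ = (M : ℝ) ^ (e / 4 + 15 / 2 * d) * S4 μ M m g (a + 1 + c) i ^ 1 * S4 μ M m g (a + 1 + b) j ^ 9
  congr 3
  ring

theorem step3 (hg : Sys4 μ M m g) (hM : 1 ≤ M) {a b₁ b₂ : ℕ} {e₁ e₂ : ℝ} (h1 : Bil 3 μ M m g a b₂ b₁ ((M : ℝ) ^ e₁))
    (h2 : Bil 1 μ M m g a b₁ b₂ ((M : ℝ) ^ e₂)) : Bil 3 μ M m g a b₁ b₂ ((M : ℝ) ^ (e₁ / 3 + 2 / 3 * e₂)) := by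
  intro i hi j hj hij hs
  have hX : (0 : ℝ) < M := by exact_mod_cast hM
  have h3 := hmix μ (hg.meas (a + 1 + b₁) i) (hg.meas (a + 1 + b₂) j) (hg.bdd _ _) (hg.bdd _ _) (t := 1 / 3)
    (by norm_num) (by norm_num) (p := 6) (q := 14) (p₁ := 14) (q₁ := 6) (p₂ := 2) (q₂ := 18) (by norm_num) (by norm_num)
  refine h3.trans ?_
  have h4 : ∫ ω, ‖g (a + 1 + b₁) i ω‖ ^ 14 * ‖g (a + 1 + b₂) j ω‖ ^ 6 ∂μ ≤
      (M : ℝ) ^ e₁ * S4 μ M m g (a + 1 + b₁) i ^ 7 * S4 μ M m g (a + 1 + b₂) j ^ 3 := by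
    have h5 := h1 j hj i hi hij.symm hs.symm
    have h6 : ∫ ω, ‖g (a + 1 + b₁) i ω‖ ^ 14 * ‖g (a + 1 + b₂) j ω‖ ^ 6 ∂μ =
        ∫ ω, ‖g (a + 1 + b₂) j ω‖ ^ (2 * 3) * ‖g (a + 1 + b₁) i ω‖ ^ (20 - 2 * 3) ∂μ := by
      congr 1
      funext ω
      change _ = ‖g (a + 1 + b₂) j ω‖ ^ 6 * ‖g (a + 1 + b₁) i ω‖ ^ 14
      ring
    rw [h6]
    refine h5.trans (le_of_eq ?_)
    change (M : ℝ) ^ e₁ * S4 μ M m g (a + 1 + b₂) j ^ 3 * S4 μ M m g (a + 1 + b₁) i ^ 7 = _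
    ring
  have h7 := h2 i hi j hj hij hs
  have h8 := rmix hX (S4_nonneg μ M m g (a + 1 + b₁) i) (S4_nonneg μ M m g (a + 1 + b₂) j)
    (integral_nonneg fun ω => by positivity) (integral_nonneg fun ω => by positivity) (t := 1 / 3) (by norm_num)
    (by norm_num) (a := 3) (b := 7) (by norm_num) (by norm_num) h4 h7
  refine le_trans ?_ (h8.trans (le_of_eq ?_))
  · exact le_of_eq rfl
  · change _ = (M : ℝ) ^ (e₁ / 3 + 2 / 3 * e₂) * S4 μ M m g (a + 1 + b₁) i ^ 3 * S4 μ M m g (a + 1 + b₂) j ^ 7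
    congr 3
    ring

theorem step6 (hg : Sys4 μ M m g) (hM : 1 ≤ M) {a b₁ b₂ : ℕ} {e₁ e₂ : ℝ} (h1 : Bil 1 μ M m g a b₂ b₁ ((M : ℝ) ^ e₁))
    (h2 : Bil 3 μ M m g a b₁ b₂ ((M : ℝ) ^ e₂)) : Bil 6 μ M m g a b₁ b₂ ((M : ℝ) ^ (e₁ / 2 + e₂ / 2)) := by
  intro i hi j hj hij hs
  have hX : (0 : ℝ) < M := by exact_mod_cast hM
  have h3 := hmix μ (hg.meas (a + 1 + b₁) i) (hg.meas (a + 1 + b₂) j) (hg.bdd _ _) (hg.bdd _ _) (t := 1 / 2)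
    (by norm_num) (by norm_num) (p := 12) (q := 8) (p₁ := 18) (q₁ := 2) (p₂ := 6) (q₂ := 14) (by norm_num) (by norm_num)
  refine h3.trans ?_
  have h4 : ∫ ω, ‖g (a + 1 + b₁) i ω‖ ^ 18 * ‖g (a + 1 + b₂) j ω‖ ^ 2 ∂μ ≤
      (M : ℝ) ^ e₁ * S4 μ M m g (a + 1 + b₁) i ^ 9 * S4 μ M m g (a + 1 + b₂) j ^ 1 := by
    have h5 := h1 j hj i hi hij.symm hs.symm
    have h6 : ∫ ω, ‖g (a + 1 + b₁) i ω‖ ^ 18 * ‖g (a + 1 + b₂) j ω‖ ^ 2 ∂μ =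
        ∫ ω, ‖g (a + 1 + b₂) j ω‖ ^ (2 * 1) * ‖g (a + 1 + b₁) i ω‖ ^ (20 - 2 * 1) ∂μ := by
      congr 1
      funext ω
      change _ = ‖g (a + 1 + b₂) j ω‖ ^ 2 * ‖g (a + 1 + b₁) i ω‖ ^ 18
      ring
    rw [h6]
    refine h5.trans (le_of_eq ?_)
    change (M : ℝ) ^ e₁ * S4 μ M m g (a + 1 + b₂) j ^ 1 * S4 μ M m g (a + 1 + b₁) i ^ 9 = _
    ring
  have h7 := h2 i hi j hj hij hs
  have h8 := rmix hX (S4_nonneg μ M m g (a + 1 + b₁) i) (S4_nonneg μ M m g (a + 1 + b₂) j)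
    (integral_nonneg fun ω => by positivity) (integral_nonneg fun ω => by positivity) (t := 1 / 2) (by norm_num)
    (by norm_num) (a := 6) (b := 4) (by norm_num) (by norm_num) h4 h7
  refine le_trans ?_ (h8.trans (le_of_eq ?_))
  · exact le_of_eq rfl
  · change _ = (M : ℝ) ^ (e₁ / 2 + e₂ / 2) * S4 μ M m g (a + 1 + b₁) i ^ 6 * S4 μ M m g (a + 1 + b₂) j ^ 4
    congr 3
    ring

/-- the symmetric type `(10, 10)` -/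
theorem step5 (hg : Sys4 μ M m g) (hM : 1 ≤ M) {a b : ℕ} {e : ℝ} (h : Bil 1 μ M m g a b b ((M : ℝ) ^ e)) :
    Bil 5 μ M m g a b b ((M : ℝ) ^ e) := by
  intro i hi j hj hij hs
  have hX : (0 : ℝ) < M := by exact_mod_cast hM
  have h3 := hmix μ (hg.meas (a + 1 + b) i) (hg.meas (a + 1 + b) j) (hg.bdd _ _) (hg.bdd _ _) (t := 1 / 2)
    (by norm_num) (by norm_num) (p := 10) (q := 10) (p₁ := 18) (q₁ := 2) (p₂ := 2) (q₂ := 18) (by norm_num) (by norm_num)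
  refine h3.trans ?_
  have h4 : ∫ ω, ‖g (a + 1 + b) i ω‖ ^ 18 * ‖g (a + 1 + b) j ω‖ ^ 2 ∂μ ≤
      (M : ℝ) ^ e * S4 μ M m g (a + 1 + b) i ^ 9 * S4 μ M m g (a + 1 + b) j ^ 1 := by
    have h5 := h j hj i hi hij.symm hs.symm
    have h6 : ∫ ω, ‖g (a + 1 + b) i ω‖ ^ 18 * ‖g (a + 1 + b) j ω‖ ^ 2 ∂μ =
        ∫ ω, ‖g (a + 1 + b) j ω‖ ^ (2 * 1) * ‖g (a + 1 + b) i ω‖ ^ (20 - 2 * 1) ∂μ := by
      congr 1
      funext ω
      change _ = ‖g (a + 1 + b) j ω‖ ^ 2 * ‖g (a + 1 + b) i ω‖ ^ 18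
      ring
    rw [h6]
    refine h5.trans (le_of_eq ?_)
    change (M : ℝ) ^ e * S4 μ M m g (a + 1 + b) j ^ 1 * S4 μ M m g (a + 1 + b) i ^ 9 = _
    ring
  have h7 := h i hi j hj hij hs
  have h8 := rmix hX (S4_nonneg μ M m g (a + 1 + b) i) (S4_nonneg μ M m g (a + 1 + b) j)
    (integral_nonneg fun ω => by positivity) (integral_nonneg fun ω => by positivity) (t := 1 / 2) (by norm_num)
    (by norm_num) (a := 5) (b := 5) (by norm_num) (by norm_num) h4 h7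
  refine le_trans ?_ (h8.trans (le_of_eq ?_))
  · exact le_of_eq rfl
  · change _ = (M : ℝ) ^ e * S4 μ M m g (a + 1 + b) i ^ 5 * S4 μ M m g (a + 1 + b) j ^ 5
    congr 3
    ring

end steps

end Pool.Agent.Helper93.ED
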