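import Pool.Agent.Helper93.ED.E4

/-!
# ED-E5: the chain

`L = m - a - 1`. With the constants written as powers of `M` (`C = M^γ`, `Cs = M^σ`), for `1 ≤ b`, `a + 1 + 4^(l+1) b ≤ m`:
(P1) `Bil 1` between the depths `b₁ ≤ 4 b - 1` and `b` holds with exponent `10 γ + 10 lam L - lam l (3 b - 2) + 3 + 3 σ`;
(P3) `Bil 3` between the depths `b₁ ≤ 3 b / 2` and `b` holds with exponent `10 γ + 10 lam L - lam l (4 b - 3) + 5 lam b + 3 + 8 σ`.
-/

open MeasureTheory Real Set Filter Topology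

set_option autoImplicit false

namespace Pool.Agent.Helper93.ED

open Pool.Agent.Helper22.AC
open Pool.Agent.Helper60.DC (Sys3 n12)

private theorem triv {Ω : Type} [MeasurableSpace Ω] {μ : Measure Ω} [IsFiniteMeasure μ] {M m : ℕ} {g : ℕ → ℕ → Ω → ℂ}
    (hg : Sys4 μ M m g) (hM : 1 ≤ M) {lam γ : ℝ} (hlam : 0 ≤ lam) (hdec : Dec4 μ M m g lam ((M : ℝ) ^ γ)) {a b₁ b₂ p : ℕ}
    (hp0 : 0 < p) (hp1 : p < 10) (h1 : a + 1 + b₁ ≤ m) (h2 : a + 1 + b₂ ≤ m) {e : ℝ}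
    (he : 10 * γ + 10 * lam * ((m : ℝ) - a - 1) ≤ e) : Bil p μ M m g a b₁ b₂ ((M : ℝ) ^ e) := by
  have hX1 : (1 : ℝ) ≤ M := by exact_mod_cast hM
  have hX : (0 : ℝ) < M := by linarith
  intro i hi j hj hij hs
  have hn : ∀ c, a + 1 + c ≤ m → ∀ k < M ^ (a + 1 + c), n20 μ (g (a + 1 + c) k) ≤
      (M : ℝ) ^ (γ + lam * ((m : ℝ) - a - 1)) * S4 μ M m g (a + 1 + c) k := by
    intro c hc k hk
    refine (hdec (a + 1 + c) hc k hk).trans ?_
    rw [← Real.rpow_add hX]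
    refine mul_le_mul_of_nonneg_right (Real.rpow_le_rpow_of_exponent_le hX1 ?_) (S4_nonneg _ _ _ _ _ _)
    have h3 : lam * ((m : ℝ) - ((a + 1 + c : ℕ) : ℝ)) ≤ lam * ((m : ℝ) - a - 1) := by
      refine mul_le_mul_of_nonneg_left ?_ hlam
      push_cast
      have : (0 : ℝ) ≤ c := Nat.cast_nonneg c
      linarith
    linarith
  have h3 := htriv μ (hg.meas (a + 1 + b₁) i) (hg.meas (a + 1 + b₂) j) (hg.bdd _ _) (hg.bdd _ _) hp0 hp1
  have h4 := pow_le_pow_left₀ (n20_nonneg _ _) (hn b₁ h1 i hi) p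
  have h5 := pow_le_pow_left₀ (n20_nonneg _ _) (hn b₂ h2 j hj) (10 - p)
  refine h3.trans ((mul_le_mul h4 h5 (pow_nonneg (n20_nonneg _ _) _) (pow_nonneg (mul_nonneg (by positivity) (S4_nonneg _ _ _ _ _ _)) _)).trans ?_)
  rw [mul_pow, mul_pow]
  set y : ℝ := (M : ℝ) ^ (γ + lam * ((m : ℝ) - a - 1)) with hy
  have hy0 : 0 < y := Real.rpow_pos_of_pos hX _
  have h6 : y ^ p * S4 μ M m g (a + 1 + b₁) i ^ p * (y ^ (10 - p) * S4 μ M m g (a + 1 + b₂) j ^ (10 - p)) =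
      y ^ 10 * S4 μ M m g (a + 1 + b₁) i ^ p * S4 μ M m g (a + 1 + b₂) j ^ (10 - p) := by
    have h7 : y ^ 10 = y ^ p * y ^ (10 - p) := by
      rw [← pow_add]
      congr 1
      omega
    rw [h7]
    ring
  rw [h6]
  have h8 : y ^ 10 ≤ (M : ℝ) ^ e := by
    rw [hy, ← Real.rpow_natCast, ← Real.rpow_mul hX.le]
    apply Real.rpow_le_rpow_of_exponent_le hX1
    push_cast
    linarith
  have h9 := S4_nonneg μ M m g (a + 1 + b₁) i
  have h10 := S4_nonneg μ M m g (a + 1 + b₂) j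
  gcongr

theorem chain {Ω : Type} [MeasurableSpace Ω] {μ : Measure Ω} [IsFiniteMeasure μ] {M m : ℕ} {g : ℕ → ℕ → Ω → ℂ}
    {σ e6 : ℝ} (hσ : 0 ≤ σ) (he0 : 0 ≤ e6)
    (h6 : ∀ (Ω : Type) [MeasurableSpace Ω] (μ : Measure Ω) [IsFiniteMeasure μ] (m : ℕ) (g : ℕ → ℕ → Ω → ℂ), Sys μ M m g →
      n6 μ (g 0 0) ≤ (M : ℝ) ^ σ * (M : ℝ) ^ (e6 * (m : ℝ)) * ∑ r ∈ Finset.range (M ^ m), n6 μ (g m r))
    (h12 : ∀ (Ω : Type) [MeasurableSpace Ω] (μ : Measure Ω) [IsFiniteMeasure μ] (m : ℕ) (g : ℕ → ℕ → Ω → ℂ), Sys3 μ M m g →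
      n12 μ (g 0 0) ≤ (M : ℝ) ^ σ * (M : ℝ) ^ (e6 * (m : ℝ)) * ∑ r ∈ Finset.range (M ^ m), n12 μ (g m r))
    (hg : Sys4 μ M m g) (hM : 2 ≤ M) {lam γ : ℝ} (hlam : 9 * e6 ≤ lam)
    (hdec : Dec4 μ M m g lam ((M : ℝ) ^ γ)) {a : ℕ} (l : ℕ) :
    ∀ b : ℕ, 1 ≤ b → a + 1 + 4 ^ (l + 1) * b ≤ m →
      (∀ b₁ : ℕ, b₁ + 1 ≤ 4 * b → Bil 1 μ M m g a b₁ b
        ((M : ℝ) ^ (10 * γ + 10 * lam * ((m : ℝ) - a - 1) - lam * l * (3 * b - 2) + 3 + 3 * σ))) ∧
      (∀ b₁ : ℕ, 2 * b₁ ≤ 3 * b → Bil 3 μ M m g a b₁ b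
        ((M : ℝ) ^ (10 * γ + 10 * lam * ((m : ℝ) - a - 1) - lam * l * (4 * b - 3) + 5 * lam * b + 3 + 8 * σ))) := by
  have hM1 : 1 ≤ M := by omega
  have hX2 : (2 : ℝ) ≤ M := by exact_mod_cast hM
  have hX1 : (1 : ℝ) ≤ M := by linarith
  have hX : (0 : ℝ) < M := by linarith
  have hlam0 : 0 ≤ lam := by linarith
  set L : ℝ := (m : ℝ) - a - 1 with hL
  induction l with
  | zero =>
    intro b hb hm
    simp only [Nat.zero_add, pow_one] at hm
    have hbr : (1 : ℝ) ≤ b := by exact_mod_cast hb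
    have h5 : 0 ≤ 5 * lam * b := by positivity
    constructor
    · intro b₁ hb₁
      refine triv hg hM1 hlam0 hdec (by norm_num) (by norm_num) (by omega) (by omega) ?_
      rw [← hL]
      push_cast
      linarith
    · intro b₁ hb₁
      refine triv hg hM1 hlam0 hdec (by norm_num) (by norm_num) (by omega) (by omega) ?_
      rw [← hL]
      push_cast
      linarith
  | succ l ih =>
    intro b hb hm
    have hp4 : 1 ≤ 4 ^ (l + 1) := Nat.one_le_pow _ _ (by norm_num)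
    have hm' : a + 1 + 4 ^ (l + 1) * (4 * b) ≤ m := by
      have : 4 ^ (l + 1 + 1) * b = 4 ^ (l + 1) * (4 * b) := by rw [pow_succ]; ring
      omega
    have hlev : ∀ x, x ≤ 4 * b → a + 1 + 4 ^ (l + 1) * x ≤ m := by
      intro x hx
      have := Nat.mul_le_mul_left (4 ^ (l + 1)) hx
      omega
    have hlev1 : ∀ x, x ≤ 4 * b → a + 1 + x ≤ m := by
      intro x hx
      have h1 := hlev x hx
      have h2 := Nat.mul_le_mul_right x hp4
      omega
    have hbr : (1 : ℝ) ≤ b := by exact_mod_cast hb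
    have hlr : (0 : ℝ) ≤ l := Nat.cast_nonneg l
    obtain ⟨c, hc⟩ : ∃ c, c + 1 = 4 * b := ⟨4 * b - 1, by omega⟩
    obtain ⟨D, hD⟩ : ∃ D, D = 2 * c / 3 := ⟨_, rfl⟩
    obtain ⟨E, hE⟩ : ∃ E, E = 3 * b / 2 := ⟨_, rfl⟩
    have hD1 : 3 * D ≤ 2 * c := by omega
    have hD2 : 2 * c ≤ 3 * D + 2 := by omega
    have hE1 : 2 * E ≤ 3 * b := by omega
    have hE2 : 3 * b ≤ 2 * E + 1 := by omega
    have hcr : (c : ℝ) = 4 * b - 1 := by
      have : ((c + 1 : ℕ) : ℝ) = ((4 * b : ℕ) : ℝ) := by rw [hc]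
      push_cast at this
      linarith
    have hD1r : (3 : ℝ) * D ≤ 2 * c := by exact_mod_cast hD1
    have hD2r : (2 : ℝ) * c ≤ 3 * D + 2 := by exact_mod_cast hD2
    have hE1r : (2 : ℝ) * E ≤ 3 * b := by exact_mod_cast hE1
    have hE2r : (3 : ℝ) * b ≤ 2 * E + 1 := by exact_mod_cast hE2
    have hbD : b ≤ D := by omega
    have hbE : b ≤ E := by omega
    have hn : ∀ j < M ^ (a + 1 + b), n20 μ (g (a + 1 + b) j) ≤
        (M : ℝ) ^ (γ + lam * (L - b)) * S4 μ M m g (a + 1 + b) j := by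
      intro j hj
      refine (hdec (a + 1 + b) (hlev1 b (by omega)) j hj).trans (le_of_eq ?_)
      rw [Real.rpow_add hX, hL]
      congr 3
      push_cast
      ring
    obtain ⟨lb, hlb⟩ : ∃ lb : ℝ, lb = lam * l * b := ⟨_, rfl⟩
    have hll : 0 ≤ lam * l := by positivity
    -- the first family
    have P1 : ∀ b₁ : ℕ, b₁ + 1 ≤ 4 * b → Bil 1 μ M m g a b₁ b
        ((M : ℝ) ^ (10 * γ + 10 * lam * L - lam * ((l + 1 : ℕ) : ℝ) * (3 * b - 2) + 3 + 3 * σ)) := by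
      intro b₁ hb₁
      have s1 := (ih D (by omega) (hlev D (by omega))).1 c (by omega)
      have s2 := (ih c (by omega) (hlev c (by omega))).2 D (by omega)
      have s3 := step6 hg hM1 s1 s2
      have s4 := bil6_key (b₁ := b) (by positivity : (0 : ℝ) ≤ (M : ℝ) ^ σ) h12 hg hM1 (by positivity) hD1 hbD
        (hlev1 c (by omega)) (hlev1 D (by omega)) s3
      obtain ⟨e', he'⟩ : ∃ e' : ℝ, e' = 6 * σ + 6 * (e6 * (5 / 3 * b)) +
          ((10 * γ + 10 * lam * L - lam * l * (3 * D - 2) + 3 + 3 * σ) / 2 +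
            (10 * γ + 10 * lam * L - lam * l * (4 * c - 3) + 5 * lam * c + 3 + 8 * σ) / 2) := ⟨_, rfl⟩
      have s5 : Bil 6 μ M m g a b c ((M : ℝ) ^ e') := by
        refine bil_mono s4 ?_
        rw [← Real.rpow_add hX, ← Real.rpow_natCast, ← Real.rpow_mul hX.le, ← Real.rpow_add hX]
        apply Real.rpow_le_rpow_of_exponent_le hX1
        have h1 : ((D - b : ℕ) : ℝ) ≤ 5 / 3 * b := by
          rw [Nat.cast_sub hbD]
          linarith
        have h2 : e6 * ((D - b : ℕ) : ℝ) ≤ e6 * (5 / 3 * b) := mul_le_mul_of_nonneg_left h1 he0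
        push_cast at h2 ⊢
        rw [he']
        linarith
      have s6 := step1 hg hM1 s5 hn
      have s7 := bil1_key hg (b₁ := b₁) (by omega : c + 1 ≤ 4 * b) (by omega) (hlev1 b (by omega)) (hlev1 c (by omega)) s6
      refine bil_mono s7 ?_
      have h3 : (3 : ℝ) ≤ (M : ℝ) ^ (2 : ℝ) := by
        rw [Real.rpow_two]
        nlinarith
      refine (mul_le_mul_of_nonneg_right h3 (by positivity)).trans ?_
      rw [← Real.rpow_add hX]
      apply Real.rpow_le_rpow_of_exponent_le hX1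
      have f1 : e6 * b * 9 ≤ lam * b := by nlinarith
      have f2 : lam * l * (8 * b - 4) ≤ lam * l * (3 * D) := mul_le_mul_of_nonneg_left (by linarith) hll
      have f3 : lam * 1 ≤ lam * b := mul_le_mul_of_nonneg_left hbr hlam0
      rw [he', hcr]
      push_cast
      nlinarith
    refine ⟨P1, ?_⟩
    intro b₁ hb₁
    have t1 := (ih E (by omega) (hlev E (by omega))).2 b (by omega)
    have t2 := P1 E (by omega)
    have t3 := step3 hg hM1 t1 t2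
    have t4 := bil3_key (b₁ := b₁) (by positivity : (0 : ℝ) ≤ (M : ℝ) ^ σ) h6 hg hM1 (by positivity) hE1 (by omega)
      (hlev1 b (by omega)) (hlev1 E (by omega)) t3
    refine bil_mono t4 ?_
    rw [← Real.rpow_add hX, ← Real.rpow_natCast, ← Real.rpow_mul hX.le, ← Real.rpow_add hX]
    apply Real.rpow_le_rpow_of_exponent_le hX1
    have g1 : ((E - b₁ : ℕ) : ℝ) ≤ 3 / 2 * b := by
      rw [Nat.cast_sub (by omega)]
      have : (0 : ℝ) ≤ b₁ := Nat.cast_nonneg _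
      linarith
    have g2 : e6 * ((E - b₁ : ℕ) : ℝ) ≤ e6 * (3 / 2 * b) := mul_le_mul_of_nonneg_left g1 he0
    have g3 : e6 * b * 9 ≤ lam * b := by nlinarith
    have g4 : lam * l * (3 * b - 1) ≤ lam * l * (2 * E) := mul_le_mul_of_nonneg_left (by linarith) hll
    have g5 : lam * (2 * E) ≤ lam * (3 * b) := mul_le_mul_of_nonneg_left hE1r hlam0
    push_cast
    nlinarith

end Pool.Agent.Helper93.ED
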