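import Pool.Agent.Helper93.ED.E5

/-!
# ED-E6: the bilinear reduction at one level, order twenty
-/

open MeasureTheory Real Set Filter Topology

set_option autoImplicit false

namespace Pool.Agent.Helper93.ED

open Pool.Agent.Helper22.AC Pool.Agent.Helper22.AE
open Pool.Agent.Helper60.DC (intg3)

private theorem twenty (u w : ℝ) (hu : 0 ≤ u) (hw : 0 ≤ w) : (u + w) ^ 20 ≤ 2 ^ 19 * (u ^ 20 + w ^ 20) := by
  have := add_pow_le hu hw 20
  norm_num at this ⊢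
  exact this

open Classical in
theorem bn20 {M : ℕ} (hM : 1 ≤ M) (z : ℕ → ℂ) :
    ‖∑ r ∈ Finset.range M, z r‖ ^ 20 ≤ 2 ^ 79 * ∑ r ∈ Finset.range M, ‖z r‖ ^ 20 +
      2 ^ 39 * (M : ℝ) ^ 28 * ∑ r ∈ Finset.range M, ∑ r' ∈ Finset.range M,
        (if sep r r' then ‖z r‖ ^ 10 * ‖z r'‖ ^ 10 else 0) := by
  obtain ⟨i₀, hi₀, hmax⟩ := Finset.exists_max_image (Finset.range M) (fun i => ‖z i‖)
    ⟨0, Finset.mem_range.2 hM⟩
  have hb := bn_one (J := 2) hM (by norm_num) z (D := ‖z i₀‖)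
    (fun i hi => hmax i (Finset.mem_range.2 hi))
  set P : (Fin 2 → Fin M) → ℝ := fun I => ‖z (I 0)‖ * ‖z (I 1)‖ with hP
  have hY : (∑ I ∈ gapT 2 M, ∏ t, ‖z (I t)‖ ^ 2) = ∑ I ∈ gapT 2 M, P I ^ 2 := by
    refine Finset.sum_congr rfl fun I _ => ?_
    rw [Fin.prod_univ_two, hP]
    ring
  rw [hY] at hb
  set Y := ∑ I ∈ gapT 2 M, P I ^ 2 with hYd
  have hY0 : 0 ≤ Y := Finset.sum_nonneg fun I _ => sq_nonneg _
  set w := Y ^ (1 / (2 * ((2 : ℕ) : ℝ))) with hw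
  have hw0 : 0 ≤ w := Real.rpow_nonneg hY0 _
  have hw4 : w ^ 4 = Y := by
    rw [hw, ← Real.rpow_natCast, ← Real.rpow_mul hY0]
    norm_num
  have hP0 : ∀ I, 0 ≤ P I := fun I => by rw [hP]; positivity
  have hcard : ((gapT 2 M).card : ℝ) ≤ (M : ℝ) ^ 2 := by
    have h1 : (gapT 2 M).card ≤ Fintype.card (Fin 2 → Fin M) := Finset.card_le_univ _
    rw [Fintype.card_fun, Fintype.card_fin, Fintype.card_fin] at h1
    exact_mod_cast h1
  set Z := ∑ I ∈ gapT 2 M, P I ^ 10 with hZ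
  have hZ0 : 0 ≤ Z := Finset.sum_nonneg fun I _ => pow_nonneg (hP0 I) 10
  have hM0 : (0 : ℝ) < M := by exact_mod_cast hM
  have hw20 : w ^ 20 ≤ (M : ℝ) ^ 8 * Z := by
    have h1 : Y ^ 5 ≤ ((gapT 2 M).card : ℝ) ^ 4 * Z := by
      rcases (gapT 2 M).eq_empty_or_nonempty with h0 | hne
      · rw [hYd, hZ, h0]
        simp
      · have h2 := pow_sum_div_card_le_sum_pow (s := gapT 2 M) (f := fun I => P I ^ 2)
          (fun I _ => by positivity) 4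
        have hc0 : (0 : ℝ) < (gapT 2 M).card := by
          have := hne.card_pos
          exact_mod_cast this
        rw [div_le_iff₀ (by positivity)] at h2
        have h3 : ∑ i ∈ gapT 2 M, (P i ^ 2) ^ (4 + 1) = Z := by
          rw [hZ]
          refine Finset.sum_congr rfl fun I _ => ?_
          ring
        rw [h3] at h2
        calc Y ^ 5 = Y ^ (4 + 1) := by ring
          _ ≤ Z * ((gapT 2 M).card : ℝ) ^ 4 := h2
          _ = _ := mul_comm _ _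
    calc w ^ 20 = (w ^ 4) ^ 5 := by ring
      _ = Y ^ 5 := by rw [hw4]
      _ ≤ ((gapT 2 M).card : ℝ) ^ 4 * Z := h1
      _ ≤ ((M : ℝ) ^ 2) ^ 4 * Z := by gcongr
      _ = (M : ℝ) ^ 8 * Z := by ring
  have hZle : Z ≤ ∑ r ∈ Finset.range M, ∑ r' ∈ Finset.range M,
        (if sep r r' then ‖z r‖ ^ 10 * ‖z r'‖ ^ 10 else 0) := by
    have h1 : Z ≤ ∑ I : Fin 2 → Fin M,
        (if sep (I 0) (I 1) then ‖z (I 0)‖ ^ 10 * ‖z (I 1)‖ ^ 10 else 0) := by
      have h2 : Z = ∑ I ∈ gapT 2 M,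
          (if sep (I 0) (I 1) then ‖z (I 0)‖ ^ 10 * ‖z (I 1)‖ ^ 10 else 0) := by
        refine Finset.sum_congr rfl fun I hI => ?_
        have h3 : sep (I 0) (I 1) := (Finset.mem_filter.1 hI).2 0 1 (by decide)
        rw [if_pos h3, hP]
        ring
      rw [h2]
      refine Finset.sum_le_sum_of_subset_of_nonneg (Finset.subset_univ _) (fun I _ _ => ?_)
      split_ifs
      · positivity
      · exact le_rfl
    refine h1.trans (le_of_eq ?_)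
    rw [← Equiv.sum_comp (finTwoArrowEquiv (Fin M)).symm, Fintype.sum_prod_type]
    simp only [finTwoArrowEquiv_symm_apply, Matrix.cons_val_zero, Matrix.cons_val_one]
    rw [← Fin.sum_univ_eq_sum_range (fun r => ∑ r' ∈ Finset.range M,
        (if sep r r' then ‖z r‖ ^ 10 * ‖z r'‖ ^ 10 else 0)) M]
    refine Finset.sum_congr rfl fun r _ => ?_
    rw [← Fin.sum_univ_eq_sum_range (fun r' =>
        (if sep r r' then ‖z r‖ ^ 10 * ‖z r'‖ ^ 10 else 0)) M]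
  have hD20 : ‖z i₀‖ ^ 20 ≤ ∑ r ∈ Finset.range M, ‖z r‖ ^ 20 :=
    Finset.single_le_sum (f := fun r => ‖z r‖ ^ 20) (fun r _ => by positivity) hi₀
  have hb' : ‖∑ r ∈ Finset.range M, z r‖ ≤ 8 * ‖z i₀‖ + 2 * M * w := by
    refine hb.trans (le_of_eq ?_)
    push_cast
    ring
  calc ‖∑ r ∈ Finset.range M, z r‖ ^ 20 ≤ (8 * ‖z i₀‖ + 2 * M * w) ^ 20 :=
        pow_le_pow_left₀ (norm_nonneg _) hb' 20
    _ ≤ 2 ^ 19 * ((8 * ‖z i₀‖) ^ 20 + (2 * M * w) ^ 20) := twenty _ _ (by positivity) (by positivity)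
    _ = 2 ^ 79 * ‖z i₀‖ ^ 20 + 2 ^ 39 * (M : ℝ) ^ 20 * w ^ 20 := by ring
    _ ≤ 2 ^ 79 * ∑ r ∈ Finset.range M, ‖z r‖ ^ 20 + 2 ^ 39 * (M : ℝ) ^ 20 * ((M : ℝ) ^ 8 * Z) := by gcongr
    _ = 2 ^ 79 * ∑ r ∈ Finset.range M, ‖z r‖ ^ 20 + 2 ^ 39 * (M : ℝ) ^ 28 * Z := by ring
    _ ≤ _ := by gcongr

theorem pow_sum_le' {ι : Type*} (s : Finset ι) (x : ι → ℝ) (hx : ∀ i ∈ s, 0 ≤ x i) (n : ℕ) :
    ∑ i ∈ s, x i ^ (n + 1) ≤ (∑ i ∈ s, x i) ^ (n + 1) := by
  have h0 : 0 ≤ ∑ i ∈ s, x i := Finset.sum_nonneg hx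
  have h1 : ∀ i ∈ s, x i ^ (n + 1) ≤ x i * (∑ i ∈ s, x i) ^ n := by
    intro i hi
    have h2 : x i ≤ ∑ i ∈ s, x i := Finset.single_le_sum hx hi
    have h3 : x i ^ n ≤ (∑ i ∈ s, x i) ^ n := pow_le_pow_left₀ (hx i hi) h2 n
    calc x i ^ (n + 1) = x i * x i ^ n := by ring
      _ ≤ x i * (∑ i ∈ s, x i) ^ n := mul_le_mul_of_nonneg_left h3 (hx i hi)
  calc ∑ i ∈ s, x i ^ (n + 1) ≤ ∑ i ∈ s, x i * (∑ i ∈ s, x i) ^ n := Finset.sum_le_sum h1
    _ = (∑ i ∈ s, x i) ^ (n + 1) := by rw [← Finset.sum_mul]; ring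

private theorem norm_ten {N : ℕ} (z : ℕ → ℂ) :
    ‖∑ k ∈ Finset.range N, z k‖ ^ 10 ≤ (N : ℝ) ^ 9 * ∑ k ∈ Finset.range N, ‖z k‖ ^ 10 := by
  rcases Nat.eq_zero_or_pos N with h0 | hN
  · subst h0
    simp
  have h1 : ‖∑ k ∈ Finset.range N, z k‖ ^ 10 ≤ (∑ k ∈ Finset.range N, ‖z k‖) ^ 10 :=
    pow_le_pow_left₀ (norm_nonneg _) (norm_sum_le _ _) 10
  have h2 := pow_sum_div_card_le_sum_pow (s := Finset.range N) (f := fun k => ‖z k‖)
    (fun k _ => norm_nonneg _) 9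
  rw [Finset.card_range, div_le_iff₀ (by positivity)] at h2
  calc _ ≤ _ := h1
    _ ≤ _ := h2
    _ = _ := mul_comm _ _

theorem q1010 {Ω : Type} [MeasurableSpace Ω] {μ : Measure Ω} [IsFiniteMeasure μ] {M m : ℕ}
    {g : ℕ → ℕ → Ω → ℂ} (hg : Sys4 μ M m g) {a b₀ j : ℕ} (hj : j < M ^ a)
    (hb : a + 1 + b₀ ≤ m) {U : ℝ} (hU : 0 ≤ U) (h : Bil 5 μ M m g a b₀ b₀ U) {r r' : ℕ}
    (hr : r < M) (hr' : r' < M) (hs : sep r r') :
    ∫ ω, ‖g (a + 1) (M * j + r) ω‖ ^ 10 * ‖g (a + 1) (M * j + r') ω‖ ^ 10 ∂μ ≤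
      (M : ℝ) ^ (18 * b₀) * U * S4 μ M m g a j ^ 10 := by
  set N : ℕ := M ^ b₀ with hN
  have hlt : ∀ x < M, M * j + x < M ^ (a + 1) := by
    intro x hx
    have := desc_lt (M := M) (s := a) (t := 1) (j := j) (r := x) hj (by rwa [pow_one])
    rwa [pow_one] at this
  have hdesc : ∀ x < M, ∀ ω, g (a + 1) (M * j + x) ω =
      ∑ k ∈ Finset.range N, g (a + 1 + b₀) (N * (M * j + x) + k) ω := fun x hx ω =>
    desc_sum4 hg hb (hlt x hx) ω
  have hsplit : ∀ x, S4 μ M m g (a + 1) (M * j + x) =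
      ∑ k ∈ Finset.range N, S4 μ M m g (a + 1 + b₀) (N * (M * j + x) + k) := fun x =>
    S4_split μ M m g _ hb
  have hSle : ∀ x < M, S4 μ M m g (a + 1) (M * j + x) ≤ S4 μ M m g a j := by
    intro x hx
    have h1 := S4_split μ M m g (s := a) (t := 1) j (by omega)
    rw [pow_one] at h1
    rw [h1]
    exact Finset.single_le_sum (f := fun r => S4 μ M m g (a + 1) (M * j + r))
      (fun r _ => S4_nonneg μ M m g _ _) (Finset.mem_range.2 hx)
  have hdiv : ∀ x < M, ∀ k < N, (N * (M * j + x) + k) / M ^ (b₀ + 1) = j := by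
    intro x hx k hk
    have h1 : (N * (M * j + x) + k) / M ^ b₀ = M * j + x := desc_div hk
    rw [pow_succ, ← Nat.div_div_eq_div_mul, h1]
    have h2 := desc_div (M := M) (t := 1) (j := j) (r := x) (by rwa [pow_one])
    rwa [pow_one] at h2
  have hNr : (N : ℝ) = (M : ℝ) ^ b₀ := by rw [hN]; push_cast; rfl
  have hpt : ∀ ω, ‖g (a + 1) (M * j + r) ω‖ ^ 10 * ‖g (a + 1) (M * j + r') ω‖ ^ 10 ≤
      (M : ℝ) ^ (18 * b₀) * ∑ k ∈ Finset.range N, ∑ l ∈ Finset.range N,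
        ‖g (a + 1 + b₀) (N * (M * j + r) + k) ω‖ ^ 10 *
          ‖g (a + 1 + b₀) (N * (M * j + r') + l) ω‖ ^ 10 := by
    intro ω
    have h1 := norm_ten (N := N) (fun k => g (a + 1 + b₀) (N * (M * j + r) + k) ω)
    have h2 := norm_ten (N := N) (fun k => g (a + 1 + b₀) (N * (M * j + r') + k) ω)
    rw [← hdesc r hr] at h1
    rw [← hdesc r' hr'] at h2
    rw [hNr] at h1 h2
    have h0 : (M : ℝ) ^ (18 * b₀) = ((M : ℝ) ^ b₀) ^ 9 * ((M : ℝ) ^ b₀) ^ 9 := by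
      rw [← pow_add, ← pow_mul]
      congr 1
      ring
    rw [h0, ← Finset.sum_mul_sum]
    generalize hS1 : ∑ k ∈ Finset.range N, ‖g (a + 1 + b₀) (N * (M * j + r) + k) ω‖ ^ 10 = S1 at h1 ⊢
    generalize hS2 : ∑ k ∈ Finset.range N, ‖g (a + 1 + b₀) (N * (M * j + r') + k) ω‖ ^ 10 = S2 at h2 ⊢
    generalize ((M : ℝ) ^ b₀) ^ 9 = y at h1 h2 ⊢
    refine (mul_le_mul h1 h2 (pow_nonneg (norm_nonneg _) _) ((pow_nonneg (norm_nonneg _) _).trans h1)).trans (le_of_eq ?_)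
    ring
  have hint : ∀ s k s' k', Integrable (fun ω => ‖g s k ω‖ ^ 10 * ‖g s' k' ω‖ ^ 10) μ := fun s k s' k' =>
    intg3 (hg.meas s k) (hg.meas s' k') (hg.bdd s k) (hg.bdd s' k') 10 10
  have h1 : ∫ ω, ‖g (a + 1) (M * j + r) ω‖ ^ 10 * ‖g (a + 1) (M * j + r') ω‖ ^ 10 ∂μ ≤
      (M : ℝ) ^ (18 * b₀) * ∑ k ∈ Finset.range N, ∑ l ∈ Finset.range N,
        ∫ ω, ‖g (a + 1 + b₀) (N * (M * j + r) + k) ω‖ ^ 10 *
          ‖g (a + 1 + b₀) (N * (M * j + r') + l) ω‖ ^ 10 ∂μ := by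
    refine (integral_mono (hint _ _ _ _) ?_ hpt).trans (le_of_eq ?_)
    · refine Integrable.const_mul ?_ _
      refine integrable_finsetSum _ fun k _ => integrable_finsetSum _ fun l _ => hint _ _ _ _
    · rw [integral_const_mul, integral_finsetSum _ (fun k _ =>
        integrable_finsetSum _ fun l _ => hint _ _ _ _)]
      congr 1
      refine Finset.sum_congr rfl fun k _ => ?_
      rw [integral_finsetSum _ (fun l _ => hint _ _ _ _)]
  have h2 : ∀ k ∈ Finset.range N, ∀ l ∈ Finset.range N,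
      ∫ ω, ‖g (a + 1 + b₀) (N * (M * j + r) + k) ω‖ ^ 10 *
          ‖g (a + 1 + b₀) (N * (M * j + r') + l) ω‖ ^ 10 ∂μ ≤
        U * S4 μ M m g (a + 1 + b₀) (N * (M * j + r) + k) ^ 5 *
          S4 μ M m g (a + 1 + b₀) (N * (M * j + r') + l) ^ 5 := by
    intro k hk l hl
    rw [Finset.mem_range] at hk hl
    refine h _ (desc_lt (hlt r hr) hk) _ (desc_lt (hlt r' hr') hl) ?_ ?_
    · rw [hdiv r hr k hk, hdiv r' hr' l hl]
    · rw [desc_div hk, desc_div hl]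
      rcases hs with hs | hs
      · left; omega
      · right; omega
  have hS0 : ∀ s k, 0 ≤ S4 μ M m g s k := fun s k => S4_nonneg μ M m g s k
  have h3 : ∑ k ∈ Finset.range N, ∑ l ∈ Finset.range N,
        ∫ ω, ‖g (a + 1 + b₀) (N * (M * j + r) + k) ω‖ ^ 10 *
          ‖g (a + 1 + b₀) (N * (M * j + r') + l) ω‖ ^ 10 ∂μ ≤
      U * S4 μ M m g (a + 1) (M * j + r) ^ 5 * S4 μ M m g (a + 1) (M * j + r') ^ 5 := by
    calc _ ≤ ∑ k ∈ Finset.range N, ∑ l ∈ Finset.range N,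
          U * S4 μ M m g (a + 1 + b₀) (N * (M * j + r) + k) ^ 5 *
          S4 μ M m g (a + 1 + b₀) (N * (M * j + r') + l) ^ 5 :=
          Finset.sum_le_sum fun k hk => Finset.sum_le_sum fun l hl => h2 k hk l hl
      _ = (U * ∑ k ∈ Finset.range N, S4 μ M m g (a + 1 + b₀) (N * (M * j + r) + k) ^ 5) *
          ∑ l ∈ Finset.range N, S4 μ M m g (a + 1 + b₀) (N * (M * j + r') + l) ^ 5 := by
          rw [← Finset.sum_mul_sum, ← Finset.mul_sum]
      _ ≤ (U * (∑ k ∈ Finset.range N, S4 μ M m g (a + 1 + b₀) (N * (M * j + r) + k)) ^ 5) *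
          (∑ l ∈ Finset.range N, S4 μ M m g (a + 1 + b₀) (N * (M * j + r') + l)) ^ 5 := by
          have c1 := pow_sum_le' (Finset.range N) (fun k => S4 μ M m g (a + 1 + b₀) (N * (M * j + r) + k))
            (fun k _ => hS0 _ _) 4
          have c2 := pow_sum_le' (Finset.range N) (fun l => S4 μ M m g (a + 1 + b₀) (N * (M * j + r') + l))
            (fun l _ => hS0 _ _) 4
          have c3 : 0 ≤ ∑ k ∈ Finset.range N, S4 μ M m g (a + 1 + b₀) (N * (M * j + r) + k) :=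
            Finset.sum_nonneg fun k _ => hS0 _ _
          have c4 : 0 ≤ ∑ l ∈ Finset.range N, S4 μ M m g (a + 1 + b₀) (N * (M * j + r') + l) ^ 5 :=
            Finset.sum_nonneg fun k _ => pow_nonneg (hS0 _ _) 5
          exact mul_le_mul (mul_le_mul_of_nonneg_left c1 hU) c2 c4 (by positivity)
      _ = _ := by rw [← hsplit, ← hsplit]
  have h4 : U * S4 μ M m g (a + 1) (M * j + r) ^ 5 * S4 μ M m g (a + 1) (M * j + r') ^ 5 ≤
      U * S4 μ M m g a j ^ 10 := by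
    have e1 := hSle r hr
    have e2 := hSle r' hr'
    have e3 := hS0 (a + 1) (M * j + r)
    have e4 := hS0 (a + 1) (M * j + r')
    have e5 := hS0 a j
    calc U * S4 μ M m g (a + 1) (M * j + r) ^ 5 * S4 μ M m g (a + 1) (M * j + r') ^ 5
        ≤ U * S4 μ M m g a j ^ 5 * S4 μ M m g a j ^ 5 := by gcongr
      _ = U * S4 μ M m g a j ^ 10 := by ring
  calc _ ≤ _ := h1
    _ ≤ (M : ℝ) ^ (18 * b₀) * (U * S4 μ M m g a j ^ 10) :=
        mul_le_mul_of_nonneg_left (h3.trans h4) (by positivity)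
    _ = _ := by ring

theorem one_level4 {Ω : Type} [MeasurableSpace Ω] {μ : Measure Ω} [IsFiniteMeasure μ] {M m : ℕ} {g : ℕ → ℕ → Ω → ℂ}
    (hg : Sys4 μ M m g) (hM : 1 ≤ M) {a b₀ j : ℕ} (hj : j < M ^ a) (hb : a + 1 + b₀ ≤ m) {U : ℝ} (hU : 0 ≤ U)
    (h : Bil 5 μ M m g a b₀ b₀ U) :
    n20 μ (g a j) ^ 10 ≤ 2 ^ 79 * ∑ r ∈ Finset.range M, n20 μ (g (a + 1) (M * j + r)) ^ 10 +
      2 ^ 39 * (M : ℝ) ^ (30 + 18 * b₀) * U * S4 μ M m g a j ^ 10 := by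
  classical
  set W : ℝ := (M : ℝ) ^ (18 * b₀) * U * S4 μ M m g a j ^ 10 with hW
  have hS0 : 0 ≤ S4 μ M m g a j := S4_nonneg μ M m g a j
  have hW0 : 0 ≤ W := by positivity
  have hint : ∀ k k', Integrable (fun ω => ‖g (a + 1) k ω‖ ^ 10 * ‖g (a + 1) k' ω‖ ^ 10) μ :=
    fun k k' => intg3 (hg.meas _ k) (hg.meas _ k') (hg.bdd _ k) (hg.bdd _ k') 10 10
  have hint20 : ∀ s k, Integrable (fun ω => ‖g s k ω‖ ^ 20) μ := by
    intro s k
    have := intg3 (μ := μ) (hg.meas s k) (hg.meas s k) (hg.bdd s k) (hg.bdd s k) 20 0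
    simpa using this
  have hint_ite : ∀ r r', Integrable (fun ω => if sep r r' then
      ‖g (a + 1) (M * j + r) ω‖ ^ 10 * ‖g (a + 1) (M * j + r') ω‖ ^ 10 else 0) μ := by
    intro r r'
    by_cases hs : sep r r'
    · simp only [if_pos hs]
      exact hint _ _
    · simp only [if_neg hs]
      exact integrable_zero _ _ _
  rw [n20_ten]
  have hpt : ∀ ω, ‖g a j ω‖ ^ 20 ≤ 2 ^ 79 * ∑ r ∈ Finset.range M, ‖g (a + 1) (M * j + r) ω‖ ^ 20 +
      2 ^ 39 * (M : ℝ) ^ 28 * ∑ r ∈ Finset.range M, ∑ r' ∈ Finset.range M,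
        (if sep r r' then ‖g (a + 1) (M * j + r) ω‖ ^ 10 * ‖g (a + 1) (M * j + r') ω‖ ^ 10 else 0) := by
    intro ω
    rw [hg.add a (by omega) j hj ω]
    exact bn20 hM (fun r => g (a + 1) (M * j + r) ω)
  have hI1 : Integrable (fun ω => (2 : ℝ) ^ 79 * ∑ r ∈ Finset.range M,
      ‖g (a + 1) (M * j + r) ω‖ ^ 20) μ :=
    (integrable_finsetSum _ fun r _ => hint20 _ _).const_mul _
  have hI2 : Integrable (fun ω => (2 : ℝ) ^ 39 * (M : ℝ) ^ 28 * ∑ r ∈ Finset.range M,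
      ∑ r' ∈ Finset.range M, (if sep r r' then
        ‖g (a + 1) (M * j + r) ω‖ ^ 10 * ‖g (a + 1) (M * j + r') ω‖ ^ 10 else 0)) μ :=
    (integrable_finsetSum _ fun r _ => integrable_finsetSum _ fun r' _ =>
      hint_ite r r').const_mul _
  refine (integral_mono (hint20 a j) (hI1.add hI2) hpt).trans ?_
  have e1 : ∫ ω, ((fun ω => (2 : ℝ) ^ 79 * ∑ r ∈ Finset.range M,
      ‖g (a + 1) (M * j + r) ω‖ ^ 20) + fun ω => (2 : ℝ) ^ 39 * (M : ℝ) ^ 28 * ∑ r ∈ Finset.range M,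
      ∑ r' ∈ Finset.range M, (if sep r r' then
        ‖g (a + 1) (M * j + r) ω‖ ^ 10 * ‖g (a + 1) (M * j + r') ω‖ ^ 10 else 0)) ω ∂μ =
      2 ^ 79 * ∑ r ∈ Finset.range M, n20 μ (g (a + 1) (M * j + r)) ^ 10 +
      2 ^ 39 * (M : ℝ) ^ 28 * ∑ r ∈ Finset.range M, ∑ r' ∈ Finset.range M,
        (if sep r r' then ∫ ω, ‖g (a + 1) (M * j + r) ω‖ ^ 10 *
          ‖g (a + 1) (M * j + r') ω‖ ^ 10 ∂μ else 0) := by
    rw [integral_add' hI1 hI2, integral_const_mul, integral_const_mul,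
      integral_finsetSum _ (fun r _ => hint20 _ _),
      integral_finsetSum _ (fun r _ => integrable_finsetSum _ fun r' _ => hint_ite r r')]
    congr 1
    · congr 1
      exact Finset.sum_congr rfl fun r _ => (n20_ten μ _).symm
    · congr 1
      refine Finset.sum_congr rfl fun r _ => ?_
      rw [integral_finsetSum _ (fun r' _ => hint_ite r r')]
      refine Finset.sum_congr rfl fun r' _ => ?_
      by_cases hs : sep r r'
      · simp only [if_pos hs]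
      · simp only [if_neg hs, integral_zero]
  rw [e1]
  have e2 : ∑ r ∈ Finset.range M, ∑ r' ∈ Finset.range M,
        (if sep r r' then ∫ ω, ‖g (a + 1) (M * j + r) ω‖ ^ 10 *
          ‖g (a + 1) (M * j + r') ω‖ ^ 10 ∂μ else 0) ≤ (M : ℝ) ^ 2 * W := by
    calc _ ≤ ∑ r ∈ Finset.range M, ∑ r' ∈ Finset.range M, W := by
          refine Finset.sum_le_sum fun r hr => Finset.sum_le_sum fun r' hr' => ?_
          split_ifs with hs
          · exact q1010 hg hj hb hU h (Finset.mem_range.1 hr) (Finset.mem_range.1 hr') hs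
          · exact hW0
      _ = (M : ℝ) ^ 2 * W := by
          rw [Finset.sum_const, Finset.sum_const, Finset.card_range, nsmul_eq_mul, nsmul_eq_mul]
          ring
  have e3 : 2 ^ 39 * (M : ℝ) ^ (30 + 18 * b₀) * U * S4 μ M m g a j ^ 10 =
      2 ^ 39 * (M : ℝ) ^ 28 * ((M : ℝ) ^ 2 * W) := by
    rw [hW, pow_add]
    ring
  rw [e3]
  gcongr

end Pool.Agent.Helper93.ED
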